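import Pool.Agent.H721R2.Subdiv
import Pool.Agent.H721R2.Shadow

set_option autoImplicit false

open Set Filter Topology

namespace Pool.Agent.Q63.Ano

open Pool.Agent.H721R2

variable {X E : Type*} [MetricSpace X] [NormedAddCommGroup E] [NormedSpace ℝ E]

/-- Expansivity. -/
theorem expansive (S : HypSys X E) : ∃ ε > 0, ∀ y z : ℤ → X, (∀ n, y (n + 1) = S.g (y n)) →
    (∀ n, z (n + 1) = S.g (z n)) → (∀ n, dist (y n) (z n) ≤ ε) → ∀ n, y n = z n := by
  obtain ⟨ε, hε, h⟩ := S.contraction_iter (1 / 2) (by linarith [S.a_le])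
  refine ⟨ε, hε, fun y z hy hz hyz n => ?_⟩
  have hk : ∀ k : ℕ, dist (y n) (z n) ≤ (1 / 2) ^ k * ε := by
    intro k
    have e1 : ∀ (w : ℤ → X), (∀ n, w (n + 1) = S.g (w n)) → ∀ (j : ℕ) (m : ℤ),
        w (m + j) = S.g^[j] (w m) := by
      intro w hw j
      induction j with
      | zero => intro m; simp
      | succ j ih =>
        intro m
        rw [Function.iterate_succ_apply', ← ih m, ← hw]
        congr 1
        push_cast
        ring
    have hs : S.SRel ε (y (n - k)) (z (n - k)) := by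
      intro j
      rw [← e1 y hy, ← e1 z hz]
      exact hyz _
    have h1 := h _ _ hs k
    rw [← e1 y hy, ← e1 z hz, sub_add_cancel] at h1
    exact h1.trans (mul_le_mul_of_nonneg_left (hyz _) (by positivity))
  have ht : Tendsto (fun k : ℕ => (1 / 2 : ℝ) ^ k * ε) atTop (𝓝 0) := by
    have := (tendsto_pow_atTop_nhds_zero_of_lt_one (by norm_num : (0 : ℝ) ≤ 1 / 2)
      (by norm_num)).mul_const ε
    simpa using this
  exact dist_le_zero.1 (ge_of_tendsto' ht hk)

/-- Closing lemma: a segment of orbit with close ends is shadowed by a periodic orbit. -/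
theorem closing [CompactSpace X] (S : HypSys X E) : ∃ ε₀ > 0, ∀ ε, 0 < ε → ε ≤ ε₀ →
    ∀ (p : ℕ) (a : X), 1 ≤ p → dist (S.g^[p] a) a ≤ ε →
    ∃ z, S.g^[p] z = z ∧ ∀ i ≤ p, dist (S.g^[i] z) (S.g^[i] a) ≤ 9 * S.K * ε := by
  obtain ⟨e1, he1, hsh⟩ := S.shadowing
  obtain ⟨e2, he2, hex⟩ := expansive S
  have hK := S.one_le_K
  refine ⟨min e1 (e2 / (16 * S.K)), lt_min he1 (by positivity), fun ε hε0 hε p a hp hpa => ?_⟩
  have hp0 : (0 : ℤ) < p := by exact_mod_cast hp
  let x : ℤ → X := fun n => S.g^[(n % p).toNat] a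
  have hmod : ∀ n : ℤ, 0 ≤ n % p := fun n => Int.emod_nonneg _ hp0.ne'
  have hx : ∀ n, dist (S.g (x n)) (x (n + 1)) ≤ ε := by
    intro n
    have h1 : S.g (x n) = S.g^[(n % p).toNat + 1] a := (Function.iterate_succ_apply' _ _ _).symm
    rw [h1]
    by_cases h2 : n % p + 1 = p
    · have h3 : (n + 1) % p = 0 := by
        rw [Int.add_emod]
        have h4 : n % p = p - 1 := by omega
        by_cases h5 : (p : ℤ) = 1
        · rw [h5]; simp
        · rw [h4]
          have h6 : (1 : ℤ) % p = 1 := Int.emod_eq_of_lt (by norm_num) (by omega)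
          rw [h6, sub_add_cancel]
          exact Int.emod_self
      have h4 : (n % p).toNat + 1 = p := by omega
      show dist _ (S.g^[((n + 1) % p).toNat] a) ≤ ε
      rw [h4, h3]
      exact hpa
    · have h3 : (n + 1) % p = n % p + 1 := by
        have h5 := Int.emod_lt_of_pos n hp0
        have h6 : n + 1 = (n % p + 1) + p * (n / p) := by
          have := Int.emod_add_mul_ediv n p
          linarith
        conv_lhs => rw [h6]
        rw [Int.add_mul_emod_self_left]
        exact Int.emod_eq_of_lt (by have := hmod n; omega) (by omega)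
      show dist _ (S.g^[((n + 1) % p).toNat] a) ≤ ε
      rw [h3]
      have h4 : (n % p + 1).toNat = (n % p).toNat + 1 := by have := hmod n; omega
      rw [h4, dist_self]
      exact hε0.le
  obtain ⟨y, hy1, hy2⟩ := hsh ε (hε.trans (min_le_left _ _)) x hx
  have hper : ∀ n, y (n + p) = y n := by
    refine hex (fun n => y (n + p)) y (fun n => ?_) hy1 (fun n => ?_)
    · show y (n + 1 + p) = S.g (y (n + p))
      rw [← hy1]
      congr 1
      ring
    · have h1 := hy2 (n + p)
      have h2 := hy2 n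
      have h3 : x (n + p) = x n := by
        show S.g^[((n + p) % p).toNat] a = S.g^[(n % p).toNat] a
        rw [Int.add_emod_right]
      rw [h3] at h1
      have h4 : ε ≤ e2 / (16 * S.K) := hε.trans (min_le_right _ _)
      rw [le_div_iff₀ (by positivity)] at h4
      calc dist (y (n + p)) (y n) ≤ dist (y (n + p)) (x n) + dist (x n) (y n) :=
            dist_triangle _ _ _
        _ ≤ 8 * S.K * ε + 8 * S.K * ε := add_le_add h1 (by rw [dist_comm]; exact h2)
        _ ≤ e2 := by linarith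
  have horb : ∀ k : ℕ, y k = S.g^[k] (y 0) := S.orbit_nat y hy1
  have hz : S.g^[p] (y 0) = y 0 := by
    rw [← horb]
    have := hper 0
    rwa [zero_add] at this
  refine ⟨y 0, hz, fun i hi => ?_⟩
  rcases Nat.lt_or_ge i p with h | h
  · have h1 := hy2 i
    rw [horb] at h1
    have h2 : x i = S.g^[i] a := by
      show S.g^[((i : ℤ) % p).toNat] a = _
      rw [Int.emod_eq_of_lt (by positivity) (by exact_mod_cast h)]
      simp
    rw [h2] at h1
    have : 8 * S.K * ε ≤ 9 * S.K * ε := by nlinarith [S.one_le_K]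
    linarith
  · obtain rfl : i = p := le_antisymm hi h
    rw [hz]
    have h1 := hy2 0
    have h2 : x 0 = a := by
      show S.g^[((0 : ℤ) % i).toNat] a = _
      simp
    rw [h2] at h1
    calc dist (y 0) (S.g^[i] a) ≤ dist (y 0) a + dist a (S.g^[i] a) := dist_triangle _ _ _
      _ ≤ 8 * S.K * ε + ε := add_le_add h1 (by rw [dist_comm]; exact hpa)
      _ ≤ 9 * S.K * ε := by nlinarith [S.one_le_K]

/-- Birkhoff sums along a closed segment of orbit are, up to a constant, bounded below by those of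
a periodic orbit. -/
theorem birkhoff_closing [CompactSpace X] (S : HypSys X E) (φ : X → ℝ) (C α : ℝ) (hC : 0 ≤ C)
    (hα : 0 < α) (hφ : ∀ x y, |φ x - φ y| ≤ C * dist x y ^ α) (δ : ℝ) (hδ : 0 < δ) :
    ∃ ε > 0, ∃ B, ∀ (p : ℕ) (a : X), 1 ≤ p → dist (S.g^[p] a) a ≤ ε →
      ∃ z, S.g^[p] z = z ∧ dist z a ≤ δ ∧
        ∑ i ∈ Finset.range p, φ (S.g^[i] z) ≤ ∑ i ∈ Finset.range p, φ (S.g^[i] a) + B := by
  obtain ⟨e1, he1, hcl⟩ := closing S
  obtain ⟨e2, he2, hlp⟩ := S.local_product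
  obtain ⟨e3, he3, hcs⟩ := S.contraction_iter (1 / 2) (by linarith [S.a_le])
  obtain ⟨e4, he4, hcu⟩ := S.symm.contraction_iter (1 / 2) (by
    show S.b < 1 / 2
    have := S.symm.a_le
    have h2 : S.symm.a = S.b := rfl
    linarith)
  have hK := S.one_le_K
  have hK0 : 0 < S.K := by linarith
  -- the size of the scale
  set ε := min (min (min e1 (e2 / (9 * S.K))) (min (e3 / (81 * S.K ^ 2)) (e4 / (100 * S.K ^ 2))))
    (δ / (9 * S.K)) with hε
  have hε0 : 0 < ε := by
    simp only [hε, lt_min_iff]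
    exact ⟨⟨⟨he1, by positivity⟩, by positivity, by positivity⟩, by positivity⟩
  have d1 : ε ≤ e1 := ((min_le_left _ _).trans (min_le_left _ _)).trans (min_le_left _ _)
  have d2 : ε ≤ e2 / (9 * S.K) :=
    ((min_le_left _ _).trans (min_le_left _ _)).trans (min_le_right _ _)
  have d3 : ε ≤ e3 / (81 * S.K ^ 2) :=
    ((min_le_left _ _).trans (min_le_right _ _)).trans (min_le_left _ _)
  have d4 : ε ≤ e4 / (100 * S.K ^ 2) :=
    ((min_le_left _ _).trans (min_le_right _ _)).trans (min_le_right _ _)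
  have d5 : ε ≤ δ / (9 * S.K) := min_le_right _ _
  rw [le_div_iff₀ (by positivity)] at d2 d3 d4 d5
  set q : ℝ := (1 / 2 : ℝ) ^ α with hq
  have hq0 : 0 ≤ q := by positivity
  have hq1 : q < 1 := Real.rpow_lt_one (by norm_num) (by norm_num) hα
  set R : ℝ := 100 * S.K ^ 2 * ε with hR
  have hR0 : 0 ≤ R := by positivity
  refine ⟨ε, hε0, 2 * (C * R ^ α / (1 - q)), fun p a hp hpa => ?_⟩
  obtain ⟨z, hz, hza⟩ := hcl ε hε0 d1 p a hp hpa
  have h0 : dist a z ≤ 9 * S.K * ε := by
    have := hza 0 (by omega)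
    rw [dist_comm]
    simpa using this
  obtain ⟨w, hw1, hw2⟩ := hlp a z (by nlinarith)
  have hKK : S.K ≤ S.K ^ 2 := by nlinarith
  have hs1 : 9 * S.K * dist a z ≤ 81 * S.K ^ 2 * ε := by
    have := mul_le_mul_of_nonneg_left h0 (by positivity : (0 : ℝ) ≤ 9 * S.K)
    nlinarith
  have hws : S.SRel e3 a w := hw1.mono (by nlinarith)
  -- forward closeness of `a` and `w`
  have hf1 : ∀ i, dist (S.g^[i] a) (S.g^[i] w) ≤ (1 / 2) ^ i * R := by
    intro i
    refine (hcs a w hws i).trans (mul_le_mul_of_nonneg_left ?_ (by positivity))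
    have := hw1 0
    simp only [Function.iterate_zero, id_eq] at this
    rw [hR]
    nlinarith [sq_nonneg S.K]
  have hf2 : ∀ i, dist (S.g^[i] a) (S.g^[i] w) ≤ 81 * S.K ^ 2 * ε := fun i => (hw1 i).trans hs1
  -- `w` and `z` at time `p`
  have hwz : ∀ i ≤ p, dist (S.g^[i] w) (S.g^[i] z) ≤ R := by
    intro i hi
    have h1 := hza i hi
    have h2 := hf2 i
    have h3 : dist (S.g^[i] w) (S.g^[i] z) ≤
        dist (S.g^[i] a) (S.g^[i] w) + dist (S.g^[i] z) (S.g^[i] a) := by
      have := dist_triangle (S.g^[i] w) (S.g^[i] a) (S.g^[i] z)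
      rw [dist_comm (S.g^[i] w) (S.g^[i] a), dist_comm (S.g^[i] a) (S.g^[i] z)] at this
      exact this
    have h4 : 9 * S.K * ε ≤ 9 * S.K ^ 2 * ε := by nlinarith
    rw [hR]
    nlinarith [mul_pos (pow_pos hK0 2) hε0]
  have hback : ∀ k : ℕ, dist (S.g.symm^[k] (S.g^[p] w)) (S.g.symm^[k] (S.g^[p] z)) ≤ R := by
    intro k
    rcases Nat.le_total k p with h | h
    · obtain ⟨j, rfl⟩ := Nat.exists_eq_add_of_le h
      rw [Function.iterate_add_apply, Function.iterate_add_apply]
      have e1 : ∀ u : X, S.g.symm^[k] (S.g^[k] u) = u := fun u =>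
        (Function.LeftInverse.iterate S.g.symm_apply_apply k) u
      rw [e1, e1]
      exact hwz j (by omega)
    · obtain ⟨j, rfl⟩ := Nat.exists_eq_add_of_le h
      rw [add_comm p j, Function.iterate_add_apply, Function.iterate_add_apply]
      have e1 : ∀ u : X, S.g.symm^[p] (S.g^[p] u) = u := fun u =>
        (Function.LeftInverse.iterate S.g.symm_apply_apply p) u
      rw [e1, e1]
      refine (hw2 j).trans (hs1.trans ?_)
      rw [hR]
      nlinarith [mul_pos (pow_pos hK0 2) hε0]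
  have hg1 : ∀ i ≤ p, dist (S.g^[i] w) (S.g^[i] z) ≤ (1 / 2) ^ (p - i) * R := by
    intro i hi
    have hrel : S.symm.SRel e4 (S.g^[p] w) (S.g^[p] z) := by
      intro k
      exact (hback k).trans (by rw [hR]; linarith)
    have h1 := hcu _ _ hrel (p - i)
    have e1 : ∀ u : X, S.symm.g^[p - i] (S.g^[p] u) = S.g^[i] u := by
      intro u
      obtain ⟨j, rfl⟩ := Nat.exists_eq_add_of_le hi
      have : i + j - i = j := by omega
      rw [this, add_comm i j, Function.iterate_add_apply]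
      exact (Function.LeftInverse.iterate S.g.symm_apply_apply j) _
    rw [e1, e1] at h1
    refine h1.trans (mul_le_mul_of_nonneg_left ?_ (by positivity))
    have := hwz p le_rfl
    exact this
  refine ⟨z, hz, by rw [dist_comm]; linarith, ?_⟩
  have hterm : ∀ i ∈ Finset.range p, φ (S.g^[i] z) ≤ φ (S.g^[i] a) +
      (C * R ^ α * q ^ i + C * R ^ α * q ^ (p - 1 - i)) := by
    intro i hi
    have hi' := Finset.mem_range.1 hi
    have h1 := hφ (S.g^[i] a) (S.g^[i] w)
    have h2 := hφ (S.g^[i] w) (S.g^[i] z)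
    have pw : ∀ j : ℕ, ((1 / 2 : ℝ) ^ j * R) ^ α = q ^ j * R ^ α := by
      intro j
      rw [Real.mul_rpow (by positivity) hR0, hq, ← Real.rpow_natCast, ← Real.rpow_natCast,
        ← Real.rpow_mul (by norm_num), ← Real.rpow_mul (by norm_num), mul_comm α]
    have h3 : C * dist (S.g^[i] a) (S.g^[i] w) ^ α ≤ C * R ^ α * q ^ i := by
      calc C * dist (S.g^[i] a) (S.g^[i] w) ^ α ≤ C * ((1 / 2 : ℝ) ^ i * R) ^ α :=
            mul_le_mul_of_nonneg_left (Real.rpow_le_rpow dist_nonneg (hf1 i) hα.le) hC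
        _ = _ := by rw [pw]; ring
    have h4 : C * dist (S.g^[i] w) (S.g^[i] z) ^ α ≤ C * R ^ α * q ^ (p - 1 - i) := by
      calc C * dist (S.g^[i] w) (S.g^[i] z) ^ α ≤ C * ((1 / 2 : ℝ) ^ (p - i) * R) ^ α :=
            mul_le_mul_of_nonneg_left
              (Real.rpow_le_rpow dist_nonneg (hg1 i hi'.le) hα.le) hC
        _ = C * R ^ α * q ^ (p - i) := by rw [pw]; ring
        _ ≤ _ := mul_le_mul_of_nonneg_left
              (pow_le_pow_of_le_one hq0 hq1.le (by omega)) (by positivity)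
    have h5 := abs_le.1 (h1.trans h3)
    have h6 := abs_le.1 (h2.trans h4)
    linarith [h5.1, h6.1]
  calc ∑ i ∈ Finset.range p, φ (S.g^[i] z)
      ≤ ∑ i ∈ Finset.range p, (φ (S.g^[i] a) +
        (C * R ^ α * q ^ i + C * R ^ α * q ^ (p - 1 - i))) := Finset.sum_le_sum hterm
    _ = ∑ i ∈ Finset.range p, φ (S.g^[i] a) + (C * R ^ α * ∑ i ∈ Finset.range p, q ^ i +
        C * R ^ α * ∑ i ∈ Finset.range p, q ^ (p - 1 - i)) := by
      rw [Finset.sum_add_distrib, Finset.sum_add_distrib, Finset.mul_sum, Finset.mul_sum]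
    _ = ∑ i ∈ Finset.range p, φ (S.g^[i] a) + 2 * (C * R ^ α * ∑ i ∈ Finset.range p, q ^ i) := by
      rw [Finset.sum_range_reflect (fun i => q ^ i) p]
      ring
    _ ≤ _ := by
      have h1 : ∑ i ∈ Finset.range p, q ^ i ≤ 1 / (1 - q) := by
        rw [le_div_iff₀ (by linarith), mul_comm, mul_neg_geom_sum]
        have : 0 ≤ q ^ p := by positivity
        linarith
      have h2 : C * R ^ α * ∑ i ∈ Finset.range p, q ^ i ≤ C * R ^ α * (1 / (1 - q)) :=
        mul_le_mul_of_nonneg_left h1 (by positivity)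
      have h3 : C * R ^ α * (1 / (1 - q)) = C * R ^ α / (1 - q) := by ring
      linarith

/-- If the Birkhoff sums along an orbit tend to minus infinity, then there are periodic points close
to the orbit with negative sums. -/
theorem exists_neg [CompactSpace X] (S : HypSys X E) (φ : X → ℝ) (C α : ℝ) (hC : 0 ≤ C)
    (hα : 0 < α) (hφ : ∀ x y, |φ x - φ y| ≤ C * dist x y ^ α) (δ : ℝ) (hδ : 0 < δ)
    (x : X) (hbot : Tendsto (fun n : ℕ => ∑ i ∈ Finset.range n, φ (S.g^[i] x)) atTop atBot) :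
    ∃ n p : ℕ, 1 ≤ n ∧ 1 ≤ p ∧ ∃ z, S.g^[p] z = z ∧ dist z (S.g^[n] x) ≤ δ ∧
      ∑ i ∈ Finset.range p, φ (S.g^[i] z) < 0 := by
  obtain ⟨ε, hε, B, hB⟩ := birkhoff_closing S φ C α hC hα hφ δ hδ
  obtain ⟨y, hy⟩ := exists_clusterPt_of_compactSpace (map (fun n : ℕ => S.g^[n] x) atTop)
  have hy' : MapClusterPt y atTop (fun n : ℕ => S.g^[n] x) := hy
  have hfr : ∃ᶠ n in atTop, dist (S.g^[n] x) y < ε / 2 :=
    (mapClusterPt_iff_frequently.1 hy') _ (Metric.ball_mem_nhds y (half_pos hε))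
  obtain ⟨n₁, hn₁, hn₁'⟩ := (hfr.and_eventually (eventually_ge_atTop 1)).exists
  have hev := hbot.eventually (eventually_lt_atBot
    (∑ i ∈ Finset.range n₁, φ (S.g^[i] x) - B))
  obtain ⟨n, hn, hn', hn''⟩ := (hfr.and_eventually (hev.and (eventually_gt_atTop n₁))).exists
  obtain ⟨p, rfl⟩ := Nat.exists_eq_add_of_lt hn''
  have hd : dist (S.g^[p + 1] (S.g^[n₁] x)) (S.g^[n₁] x) ≤ ε := by
    rw [← Function.iterate_add_apply]
    have e1 : p + 1 + n₁ = n₁ + p + 1 := by ring
    rw [e1]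
    have := dist_triangle_right (S.g^[n₁ + p + 1] x) (S.g^[n₁] x) y
    linarith
  obtain ⟨z, hz, hzd, hzs⟩ := hB (p + 1) (S.g^[n₁] x) (by omega) hd
  refine ⟨n₁, p + 1, hn₁', by omega, z, hz, hzd, ?_⟩
  have h2 : ∑ i ∈ Finset.range (n₁ + p + 1), φ (S.g^[i] x) =
      ∑ i ∈ Finset.range n₁, φ (S.g^[i] x) +
      ∑ i ∈ Finset.range (p + 1), φ (S.g^[i] (S.g^[n₁] x)) := by
    rw [add_assoc, Finset.sum_range_add]
    congr 1
    refine Finset.sum_congr rfl fun i _ => ?_
    rw [← Function.iterate_add_apply, add_comm n₁ i]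
  rw [h2] at hn'
  linarith

end Pool.Agent.Q63.Ano
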