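import Pool.Agent.H721R2.Embed

set_option autoImplicit false

open scoped Manifold ContDiff Topology
open Set Filter

namespace Pool.Agent.Q63.Ano

open Pool.Agent.H721R2

section lin

variable {E : Type*} [NormedAddCommGroup E] [NormedSpace ℝ E] [FiniteDimensional ℝ E]
  {F : Type*} [NormedAddCommGroup F] [InnerProductSpace ℝ F]

/-- Gram determinant of a linear map (with respect to a fixed basis of the source). -/
noncomputable def gd (A : E →L[ℝ] F) : ℝ :=
  (Matrix.gram ℝ (fun i => A (Module.finBasis ℝ E i))).det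

theorem gd_comp (A : E →L[ℝ] F) (T : E →L[ℝ] E) : gd (A.comp T) = T.det ^ 2 * gd A := by
  set b := Module.finBasis ℝ E with hb
  set Tm := LinearMap.toMatrix b b (T : E →ₗ[ℝ] E) with hTm
  have h1 : ∀ i, T (b i) = ∑ k, Tm k i • b k := by
    intro i
    have := b.sum_repr (T (b i))
    rw [← this]
    refine Finset.sum_congr rfl fun k _ => ?_
    rw [hTm, LinearMap.toMatrix_apply]
    rfl
  have h2 : Matrix.gram ℝ (fun i => (A.comp T) (b i)) =
      Tm.transpose * Matrix.gram ℝ (fun i => A (b i)) * Tm := by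
    ext i j
    rw [Matrix.gram_apply]
    simp only [ContinuousLinearMap.comp_apply, h1, map_sum, map_smul]
    rw [Matrix.mul_apply]
    simp only [Matrix.mul_apply, Matrix.transpose_apply, Matrix.gram_apply, sum_inner, inner_sum,
      real_inner_smul_left, real_inner_smul_right, Finset.sum_mul]
    refine Finset.sum_congr rfl fun k _ => Finset.sum_congr rfl fun l _ => ?_
    rw [real_inner_comm]
    ring
  have h3 : Tm.det = T.det := by
    rw [hTm, LinearMap.det_toMatrix]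
  unfold gd
  rw [h2, Matrix.det_mul, Matrix.det_mul, Matrix.det_transpose, h3]
  ring

theorem gd_pos (A : E →L[ℝ] F) (hA : Function.Injective A) : 0 < gd A := by
  refine (Matrix.posDef_gram_of_linearIndependent ?_).det_pos
  exact (Module.finBasis ℝ E).linearIndependent.map' (A : E →ₗ[ℝ] F)
    (LinearMap.ker_eq_bot.2 hA)

theorem gd_contDiff : ContDiff ℝ ∞ (gd : (E →L[ℝ] F) → ℝ) := by
  unfold gd
  simp only [Matrix.det_apply]
  refine ContDiff.sum fun σ _ => ?_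
  refine ContDiff.const_smul _ ?_
  refine contDiff_prod fun i _ => ?_
  simp only [Matrix.gram_apply]
  exact ContDiff.inner ℝ (contDiff_id.clm_apply contDiff_const)
    (contDiff_id.clm_apply contDiff_const)

end lin

section man

variable {E₀ : Type*} [NormedAddCommGroup E₀] [NormedSpace ℝ E₀] [FiniteDimensional ℝ E₀]
  {M : Type*} [TopologicalSpace M] [ChartedSpace E₀ M] [IsManifold 𝓘(ℝ, E₀) 1 M]
  {F : Type*} [NormedAddCommGroup F] [InnerProductSpace ℝ F]

theorem gd_dm_chart (h : M → F) (hh : ContMDiff 𝓘(ℝ, E₀) 𝓘(ℝ, F) 1 h) (x₀ x : M)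
    (hx : x ∈ (extChartAt 𝓘(ℝ, E₀) x₀).source) :
    gd (dm E₀ h x) = (dm E₀ (extChartAt 𝓘(ℝ, E₀) x₀) x).det ^ 2 *
      gd (fderiv ℝ (hatMap h x₀) (extChartAt 𝓘(ℝ, E₀) x₀ x)) := by
  rw [← gd_comp]
  congr 1
  ext v
  exact hatMap_mfderiv h hh x₀ x hx v

theorem det_chart_ne (x₀ x : M) (hx : x ∈ (extChartAt 𝓘(ℝ, E₀) x₀).source) :
    (dm E₀ (extChartAt 𝓘(ℝ, E₀) x₀) x).det ≠ 0 := by
  obtain ⟨A, hA⟩ := isInvertible_mfderiv_extChartAt (I := 𝓘(ℝ, E₀)) hx
  have hinj : Function.Injective (dm E₀ (extChartAt 𝓘(ℝ, E₀) x₀) x) := by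
    intro a b hab
    have e1 : ∀ v : E₀, dm E₀ (extChartAt 𝓘(ℝ, E₀) x₀) x v = A v := fun v => by
      have := congrArg (fun B : TangentSpace 𝓘(ℝ, E₀) x →L[ℝ]
        TangentSpace 𝓘(ℝ, E₀) (extChartAt 𝓘(ℝ, E₀) x₀ x) => B v) hA
      exact this.symm
    rw [e1, e1] at hab
    exact A.injective hab
  intro h0
  have h1 := LinearMap.bot_lt_ker_of_det_eq_zero
    (f := ((dm E₀ (extChartAt 𝓘(ℝ, E₀) x₀) x : E₀ →L[ℝ] E₀) : E₀ →ₗ[ℝ] E₀)) h0
  rw [LinearMap.ker_eq_bot.2 hinj] at h1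
  exact lt_irrefl _ h1

theorem gd_iter (ee : M → F) (he : ContMDiff 𝓘(ℝ, E₀) 𝓘(ℝ, F) 1 ee)
    (G : M → M) (hG : ContMDiff 𝓘(ℝ, E₀) 𝓘(ℝ, E₀) 1 G) (x : M) :
    gd (dm E₀ (ee ∘ G) x) = (dg E₀ G x).det ^ 2 * gd (dm E₀ ee (G x)) := by
  rw [← gd_comp]
  congr 1
  ext v
  exact dm_comp ee he G hG x v

end man

end Pool.Agent.Q63.Ano
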