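import Pool.Agent.H721R2.Embed

set_option autoImplicit false

open scoped Manifold ContDiff Topology
open Set Filter

namespace Pool.Agent.Q63.Ano

open Pool.Agent.H721R2

variable {E₀ : Type*} [NormedAddCommGroup E₀] [NormedSpace ℝ E₀] [FiniteDimensional ℝ E₀]
  {M : Type*} [MetricSpace M] [CompactSpace M] [ChartedSpace E₀ M] [IsManifold 𝓘(ℝ, E₀) 1 M]
  {F : Type*} [NormedAddCommGroup F] [NormedSpace ℝ F]
  {F' : Type*} [NormedAddCommGroup F'] [NormedSpace ℝ F']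

/-- `C¹` maps on a compact embedded manifold are Lipschitz for the metric of the ambient space. -/
theorem lip_of_C1 (e : M → F) (he : ContMDiff 𝓘(ℝ, E₀) 𝓘(ℝ, F) 1 e)
    (hiso : ∀ x y, dist x y = ‖e x - e y‖)
    (hinj : ∀ x, Function.Injective (dm E₀ e x))
    (h : M → F') (hh : ContMDiff 𝓘(ℝ, E₀) 𝓘(ℝ, F') 1 h) :
    ∃ L > 0, ∀ x y : M, ‖h x - h y‖ ≤ L * dist x y := by
  have key : ∀ x₀ : M, ∃ C : ℝ, 0 < C ∧ ∃ W ∈ 𝓝 x₀, ∀ x ∈ W, ∀ y ∈ W,
      ‖h x - h y‖ ≤ C * dist x y := by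
    intro x₀
    obtain ⟨⟨C, hC, h1⟩, h2⟩ := local_all e he hinj h hh x₀
    obtain ⟨W, hW, r, hr, h3, -, -⟩ := h2 1 one_pos
    refine ⟨1 + C * C * 2, by positivity, W ∩ {x | ∀ v : E₀,
      ‖dm E₀ (extChartAt 𝓘(ℝ, E₀) x₀) x v‖ ≤ C * ‖dm E₀ e x v‖ ∧
      ‖dm E₀ h x v‖ ≤ C * ‖dm E₀ (extChartAt 𝓘(ℝ, E₀) x₀) x v‖}, inter_mem hW h1, ?_⟩
    rintro x ⟨hx, -⟩ y ⟨hy, hy'⟩
    obtain ⟨v, h5, h6⟩ := h3 y hy x hx
    rw [hiso x y]
    have h7 := hy' v
    have h8 : ‖dm E₀ e y v‖ ≤ 2 * ‖e x - e y‖ := by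
      have := norm_sub_norm_le (dm E₀ e y v) (e x - e y)
      rw [norm_sub_rev (dm E₀ e y v) (e x - e y)] at this
      linarith
    have h9 : ‖dm E₀ h y v‖ ≤ C * C * (2 * ‖e x - e y‖) := by
      calc ‖dm E₀ h y v‖ ≤ C * ‖dm E₀ (extChartAt 𝓘(ℝ, E₀) x₀) y v‖ := h7.2
        _ ≤ C * (C * ‖dm E₀ e y v‖) := mul_le_mul_of_nonneg_left h7.1 hC.le
        _ = C * C * ‖dm E₀ e y v‖ := by ring
        _ ≤ _ := mul_le_mul_of_nonneg_left h8 (by positivity)
    calc ‖h x - h y‖ = ‖(h x - h y - dm E₀ h y v) + dm E₀ h y v‖ := by rw [sub_add_cancel]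
      _ ≤ ‖h x - h y - dm E₀ h y v‖ + ‖dm E₀ h y v‖ := norm_add_le _ _
      _ ≤ 1 * ‖e x - e y‖ + C * C * (2 * ‖e x - e y‖) := add_le_add h6 h9
      _ = _ := by ring
  choose C hC W hW hP using key
  obtain ⟨B, hB⟩ : ∃ B, ∀ x, ‖h x‖ ≤ B := by
    obtain ⟨B, hB⟩ := (isCompact_univ (X := M)).exists_bound_of_continuousOn
      (hh.continuous.continuousOn)
    exact ⟨B, fun x => hB x (mem_univ x)⟩
  obtain ⟨t, -, ht⟩ := (isCompact_univ (X := M)).elim_nhds_subcover (fun x₀ => interior (W x₀))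
    (fun x₀ _ => interior_mem_nhds.2 (hW x₀))
  obtain ⟨r, hr, hcov⟩ := lebesgue_number_lemma_of_metric (isCompact_univ (X := M))
    (c := fun x : t => interior (W x)) (fun x => isOpen_interior)
    (fun x hx => by
      have := ht hx
      simp only [mem_iUnion] at this ⊢
      obtain ⟨i, hi, hi'⟩ := this
      exact ⟨⟨i, hi⟩, hi'⟩)
  have hB0 : 0 ≤ |B| := abs_nonneg B
  refine ⟨∑ x ∈ t, C x + 2 * |B| / r + 1, ?_, ?_⟩
  · have : 0 ≤ ∑ x ∈ t, C x := Finset.sum_nonneg fun i _ => (hC i).le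
    positivity
  · intro x y
    have hs : 0 ≤ ∑ x ∈ t, C x := Finset.sum_nonneg fun i _ => (hC i).le
    by_cases hxy : dist x y < r
    · obtain ⟨i, hi⟩ := hcov y (mem_univ y)
      have hx' : x ∈ W i := interior_subset (hi (Metric.mem_ball.2 hxy))
      have hy' : y ∈ W i := interior_subset (hi (Metric.mem_ball_self hr))
      refine (hP i x hx' y hy').trans (mul_le_mul_of_nonneg_right ?_ dist_nonneg)
      have h1 : C i ≤ ∑ x ∈ t, C x :=
        Finset.single_le_sum (f := fun x => C x) (fun j _ => (hC j).le) i.2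
      have h2 : 0 ≤ 2 * |B| / r := by positivity
      linarith
    · push Not at hxy
      have h1 : ‖h x - h y‖ ≤ 2 * |B| := by
        have := norm_sub_le (h x) (h y)
        have e1 := (hB x).trans (le_abs_self B)
        have e2 := (hB y).trans (le_abs_self B)
        linarith
      have h2 : 2 * |B| ≤ 2 * |B| / r * dist x y := by
        rw [div_mul_eq_mul_div, le_div_iff₀ hr]
        exact mul_le_mul_of_nonneg_left hxy (by positivity)
      have h3 : 0 ≤ dist x y := dist_nonneg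
      nlinarith [mul_nonneg hs h3]

end Pool.Agent.Q63.Ano
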