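import Pool.Agent.Q63.Ano.Vol2

set_option autoImplicit false
set_option linter.unusedSectionVars false

open Filter Topology Set MeasureTheory
open scoped Manifold ContDiff ENNReal

namespace Pool.Agent.Q63.Ano

open Pool.Agent.H721R2 Pool.Agent.H789R2.AN

variable {E : Type*} [NormedAddCommGroup E] [NormedSpace ℝ E] [FiniteDimensional ℝ E]
  {M : Type*} [TopologicalSpace M] [T2Space M] [CompactSpace M] [ConnectedSpace M]
  [ChartedSpace E M] [IsManifold 𝓘(ℝ, E) ∞ M]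

omit [FiniteDimensional ℝ E] [T2Space M] [CompactSpace M] [ConnectedSpace M] in
theorem invField_symm (f : Diffeomorph 𝓘(ℝ, E) 𝓘(ℝ, E) M M 1)
    (V : ∀ x : M, Submodule ℝ (TangentSpace 𝓘(ℝ, E) x)) (h : InvariantField f V) :
    InvariantField f.symm V := by
  intro x
  have h1 : ∀ y : M, (V y).map (mfderiv 𝓘(ℝ, E) 𝓘(ℝ, E) f y).toLinearMap = V (f y) := h
  have key : ∀ y : M, (V (f y)).map (mfderiv 𝓘(ℝ, E) 𝓘(ℝ, E) f.symm (f y)).toLinearMap =
      (V y : Submodule ℝ E) := by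
    intro y
    have hc : (mfderiv 𝓘(ℝ, E) 𝓘(ℝ, E) f.symm (f y)).comp (mfderiv 𝓘(ℝ, E) 𝓘(ℝ, E) f y) =
        ContinuousLinearMap.id ℝ (TangentSpace 𝓘(ℝ, E) y) := by
      have e1 := mfderiv_comp y (I := 𝓘(ℝ, E)) (I' := 𝓘(ℝ, E)) (I'' := 𝓘(ℝ, E))
        (g := f.symm) (f := f)
        ((f.symm.contMDiff).mdifferentiableAt (by norm_num))
        ((f.contMDiff).mdifferentiableAt (by norm_num))
      have e2 : (f.symm : M → M) ∘ (f : M → M) = id := by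
        funext z
        exact f.symm_apply_apply z
      rw [e2, mfderiv_id] at e1
      exact e1.symm
    have e3 : ∀ v : E, (mfderiv 𝓘(ℝ, E) 𝓘(ℝ, E) f.symm (f y))
        ((mfderiv 𝓘(ℝ, E) 𝓘(ℝ, E) f y) v) = v := fun v =>
      congrArg (fun L : E →L[ℝ] E => L v) hc
    rw [← h1 y]
    ext v
    constructor
    · rintro ⟨w, ⟨z, hz, rfl⟩, rfl⟩
      have e4 := e3 z
      change (mfderiv 𝓘(ℝ, E) 𝓘(ℝ, E) f.symm (f y))
        ((mfderiv 𝓘(ℝ, E) 𝓘(ℝ, E) f y) z) ∈ _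
      rw [e4]
      exact hz
    · intro hv
      exact ⟨(mfderiv 𝓘(ℝ, E) 𝓘(ℝ, E) f y) v, ⟨v, hv, rfl⟩, e3 v⟩
  have h2 := key (f.symm x)
  rw [f.apply_symm_apply] at h2
  exact h2

omit [FiniteDimensional ℝ E] [T2Space M] [CompactSpace M] [ConnectedSpace M] in
theorem anosov_symm (f : Diffeomorph 𝓘(ℝ, E) 𝓘(ℝ, E) M M 1)
    (Es Eu : ∀ x : M, Submodule ℝ (TangentSpace 𝓘(ℝ, E) x)) (h : IsAnosov f Es Eu) :
    IsAnosov f.symm Eu Es where
  isCompl := fun x => (h.isCompl x).symm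
  map_s := invField_symm f Eu h.map_u
  map_u := invField_symm f Es h.map_s
  rates := by
    obtain ⟨N, C, l, hN, hC, hl0, hl1, h1, h2⟩ := h.rates
    exact ⟨N, C, l, hN, hC, hl0, hl1, h2, h1⟩

theorem transitive_symm (f : M ≃ₜ M) (h : TopTransitive f.symm) : TopTransitive f := by
  intro U V hU hUn hV hVn
  obtain ⟨n, y, ⟨x, hx, hxy⟩, hy⟩ := h V U hV hVn hU hUn
  refine ⟨n, x, ⟨y, hy, ?_⟩, hx⟩
  rw [← hxy]
  exact (Function.LeftInverse.iterate f.apply_symm_apply n) x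


/-- The volume version, for points that are contracted. -/
theorem vol_main (f : Diffeomorph 𝓘(ℝ, E) 𝓘(ℝ, E) M M 1)
    (Es Eu : ∀ x : M, Submodule ℝ (TangentSpace 𝓘(ℝ, E) x)) (hA : IsAnosov f Es Eu)
    (hf2 : ContMDiff 𝓘(ℝ, E) 𝓘(ℝ, E) 2 f) :
    ((∀ p : ℕ, 1 ≤ p → ∀ z, f^[p] z = z → 1 ≤ |(dg E (f^[p]) z).det|) → TopTransitive f) ∧
    ∀ U : Set M, IsOpen U → U.Nonempty → U ≠ univ → f '' closure U ⊆ U →
      ∃ p : ℕ, 1 ≤ p ∧ ∃ z ∈ U, f^[p] z = z ∧ |(dg E (f^[p]) z).det| < 1 := by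
  let _ : MeasurableSpace M := borel M
  have _ : BorelSpace M := ⟨rfl⟩
  obtain ⟨m, ee, hee, hemb, hinje⟩ :=
    exists_embedding_euclidean_of_compact (I := 𝓘(ℝ, E)) (M := M)
  have he1 : ContMDiff 𝓘(ℝ, E) (𝓡 m) 1 ee := hee.of_le (by simp)
  have he2 : ContMDiff 𝓘(ℝ, E) (𝓡 m) 2 ee := hee.of_le (WithTop.coe_le_coe.2 le_top)
  have hp : ∀ x, 0 < gd (dm E ee x) := fun x => gd_pos _ (hinje x)
  have hp' : ∀ x, 0 < gd (dm E (ee ∘ f) x) := by
    intro x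
    rw [gd_iter ee he1 f f.contMDiff x]
    have h1 := det_dg_ne f 1 x
    rw [Function.iterate_one] at h1
    exact mul_pos (by positivity) (hp _)
  have hlq : ContMDiff 𝓘(ℝ, E) 𝓘(ℝ, ℝ) 1 (lq E (ee ∘ f) ee) :=
    lq_contMDiff (ee ∘ f) ee (he2.comp hf2) he2 hp' hp
  obtain ⟨μ, hμf, hμ, C, hC, hqi⟩ := vol_measure f ee he2 hp hlq.continuous
  have hH : HolderMan E (lq E (ee ∘ f) ee) := by
    let _ : MetricSpace M := hemb.isEmbedding.comapMetricSpace ee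
    have hiso : ∀ x y : M, dist x y = ‖ee x - ee y‖ := fun x y => dist_eq_norm (ee x) (ee y)
    obtain ⟨L, hL, hLq⟩ := lip_of_C1 ee he1 hiso hinje (lq E (ee ∘ f) ee) hlq
    refine ⟨m, ee, L, 1, he1, one_pos, fun x y => ?_⟩
    rw [Real.rpow_one, ← hiso]
    exact hLq x y
  obtain ⟨h1, h2⟩ := general f Es Eu hA μ hμ (lq E (ee ∘ f) ee) hH C hC hqi
  refine ⟨fun hper => h1 fun p hp1 z hz => ?_, fun U hU hUn hUu htr => ?_⟩
  · rw [bsum_periodic f ee he1 hp p z hz]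
    exact Real.log_nonneg (hper p hp1 z hz)
  · obtain ⟨p, hp1, z, hzU, hz, hzs⟩ := h2 U hU hUn hUu htr
    rw [bsum_periodic f ee he1 hp p z hz] at hzs
    refine ⟨p, hp1, z, hzU, hz, ?_⟩
    have h3 : 0 < |(dg E (f^[p]) z).det| := abs_pos.2 (det_dg_ne f p z)
    exact (Real.log_neg_iff h3).1 hzs

/-- Periodic points of the inverse. -/
theorem det_symm (f : Diffeomorph 𝓘(ℝ, E) 𝓘(ℝ, E) M M 1) (p : ℕ) (z : M)
    (hz : f.symm^[p] z = z) : f^[p] z = z ∧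
      |(dg E (f^[p]) z).det| * |(dg E (f.symm^[p]) z).det| = 1 := by
  have hf : ContMDiff 𝓘(ℝ, E) 𝓘(ℝ, E) 1 f := f.contMDiff
  have hfs : ContMDiff 𝓘(ℝ, E) 𝓘(ℝ, E) 1 f.symm := f.symm.contMDiff
  have hz' : f^[p] z = z := by
    have := (Function.LeftInverse.iterate f.apply_symm_apply p) z
    rw [hz] at this
    exact this
  refine ⟨hz', ?_⟩
  have h1 := dg_inv (f^[p]) (f.symm^[p]) (iter_smooth f hf p) (iter_smooth f.symm hfs p)
    (fun x => (Function.LeftInverse.iterate f.symm_apply_apply p) x) z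
  rw [hz'] at h1
  have h2 : (dg E (f.symm^[p]) z).comp (dg E (f^[p]) z) = ContinuousLinearMap.id ℝ E := by
    ext v
    exact h1 v
  have h3 : (dg E (f.symm^[p]) z).det * (dg E (f^[p]) z).det = 1 := by
    have h4 := congrArg ContinuousLinearMap.det h2
    have h5 : ((dg E (f.symm^[p]) z).comp (dg E (f^[p]) z)).det =
        (dg E (f.symm^[p]) z).det * (dg E (f^[p]) z).det :=
      LinearMap.det_comp (dg E (f.symm^[p]) z : E →ₗ[ℝ] E) (dg E (f^[p]) z : E →ₗ[ℝ] E)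
    rw [← h5, h4]
    exact LinearMap.det_id
  rw [← abs_mul, mul_comm, h3, abs_one]

theorem vol_main_symm (f : Diffeomorph 𝓘(ℝ, E) 𝓘(ℝ, E) M M 1)
    (Es Eu : ∀ x : M, Submodule ℝ (TangentSpace 𝓘(ℝ, E) x)) (hA : IsAnosov f Es Eu)
    (hf2 : ContMDiff 𝓘(ℝ, E) 𝓘(ℝ, E) 2 f.symm) :
    ((∀ p : ℕ, 1 ≤ p → ∀ z, f^[p] z = z → |(dg E (f^[p]) z).det| ≤ 1) → TopTransitive f) ∧
    ∀ U : Set M, IsOpen U → U.Nonempty → U ≠ univ → f '' closure U ⊆ U →
      ∃ p : ℕ, 1 ≤ p ∧ ∃ z, z ∉ closure U ∧ f^[p] z = z ∧ 1 < |(dg E (f^[p]) z).det| := by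
  obtain ⟨h1, h2⟩ := vol_main f.symm Eu Es (anosov_symm f Es Eu hA) hf2
  refine ⟨fun hper => transitive_symm f.toHomeomorph (h1 fun p hp z hz => ?_),
    fun U hU hUn hUu htr => ?_⟩
  · obtain ⟨h3, h4⟩ := det_symm f p z hz
    have h5 := hper p hp z h3
    have h6 : 0 ≤ |(dg E (f.symm^[p]) z).det| := abs_nonneg _
    nlinarith
  · have hV : IsOpen (closure U)ᶜ := isClosed_closure.isOpen_compl
    have hcl : IsClosed U → False := fun h => by
      rcases isClopen_iff.1 ⟨h, hU⟩ with h3 | h3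
      · exact hUn.ne_empty h3
      · exact hUu h3
    have hVn : (closure U)ᶜ.Nonempty := by
      rw [nonempty_iff_ne_empty]
      intro h0
      have h3 : closure U = univ := compl_empty_iff.1 h0
      apply hUu
      exact univ_subset_iff.1 fun y _ =>
        htr ⟨f.symm y, by rw [h3]; trivial, f.apply_symm_apply y⟩
    have hVu : (closure U)ᶜ ≠ univ := by
      intro h0
      have h3 : closure U = ∅ := compl_univ_iff.1 h0
      exact hUn.closure.ne_empty h3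
    have htr' : f.symm '' closure (closure U)ᶜ ⊆ (closure U)ᶜ := by
      rintro _ ⟨y, hy, rfl⟩ hmem
      have h3 : f (f.symm y) ∈ U := htr ⟨_, hmem, rfl⟩
      rw [f.apply_symm_apply] at h3
      have h4 : closure (closure U)ᶜ ⊆ Uᶜ :=
        closure_minimal (compl_subset_compl.2 subset_closure) hU.isClosed_compl
      exact h4 hy h3
    obtain ⟨p, hp, z, hzV, hz, hzd⟩ := h2 (closure U)ᶜ hV hVn hVu htr'
    obtain ⟨h3, h4⟩ := det_symm f p z hz
    refine ⟨p, hp, z, hzV, h3, ?_⟩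
    have h5 : 0 ≤ |(dg E (f^[p]) z).det| := abs_nonneg _
    have h6 : 0 ≤ |(dg E (f.symm^[p]) z).det| := abs_nonneg _
    by_contra hcon
    push Not at hcon
    nlinarith

end Pool.Agent.Q63.Ano
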