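import Pool.Agent.Q63.Ano.Abs
import Pool.Agent.Q63.Ano.Lip
import Pool.Agent.Q182.AmAnosov

set_option autoImplicit false

open scoped Manifold ContDiff Topology ENNReal
open Set Filter MeasureTheory

namespace Pool.Agent.Q63.Ano

open Pool.Agent.H721R2 Pool.Agent.H789R2.AN

/-- Birkhoff sum. -/
noncomputable def bsum {M : Type*} (f : M → M) (φ : M → ℝ) (n : ℕ) (x : M) : ℝ :=
  ∑ i ∈ Finset.range n, φ (f^[i] x)

/-- A wandering open set contains points along which the Birkhoff sums tend to minus infinity. -/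
theorem wandering_point {M : Type*} [TopologicalSpace M] [MeasurableSpace M] [BorelSpace M]
    (μ : Measure M) [IsFiniteMeasure μ] (f : M ≃ₜ M) (φ : M → ℝ) (hφ : Continuous φ)
    (C : ℝ≥0∞) (hC : C ≠ ⊤) (U : Set M) (hU : IsOpen U) (hμU : μ U ≠ 0)
    (hqi : ∀ n : ℕ, ∫⁻ x in U, ENNReal.ofReal (Real.exp (bsum f φ n x)) ∂μ ≤ C * μ (f^[n] '' U))
    (hw : ∀ m : ℕ, 1 ≤ m → ¬ (f^[m] '' U ∩ U).Nonempty) :
    ∃ x ∈ U, Tendsto (fun n => bsum f φ n x) atTop atBot := by
  have hcont : ∀ n : ℕ, Continuous (fun x => bsum f φ n x) := by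
    intro n
    exact continuous_finsetSum _ fun i _ => hφ.comp (f.continuous.iterate i)
  have hmeas : ∀ n : ℕ, Measurable (fun x => ENNReal.ofReal (Real.exp (bsum f φ n x))) :=
    fun n => (Real.continuous_exp.comp (hcont n)).measurable.ennreal_ofReal
  have hopen : ∀ n : ℕ, IsOpen (f^[n] '' U) := by
    intro n
    induction n with
    | zero => simpa using hU
    | succ n ih =>
      rw [Function.iterate_succ', image_comp]
      exact f.isOpenMap _ ih
  have hdisj : Pairwise (Function.onFun Disjoint fun n : ℕ => f^[n] '' U) := by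
    have key : ∀ a b : ℕ, a < b → Disjoint (f^[a] '' U) (f^[b] '' U) := by
      intro a b hab
      obtain ⟨d, rfl⟩ := Nat.exists_eq_add_of_lt hab
      rw [Set.disjoint_left]
      rintro _ ⟨x, hx, rfl⟩ ⟨y, hy, hyx⟩
      apply hw (d + 1) (by omega)
      refine ⟨x, ⟨y, hy, ?_⟩, hx⟩
      have e1 : f^[a + d + 1] y = f^[a] (f^[d + 1] y) := by
        rw [← Function.iterate_add_apply]
        congr 1
      rw [e1] at hyx
      exact (f.injective.iterate a) hyx
    intro a b hab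
    rcases lt_or_gt_of_ne hab with h | h
    · exact key a b h
    · exact (key b a h).symm
  have hsum : ∑' n : ℕ, μ (f^[n] '' U) ≤ μ univ := by
    rw [← measure_iUnion hdisj fun n => (hopen n).measurableSet]
    exact measure_mono (subset_univ _)
  have hint : ∫⁻ x in U, ∑' n : ℕ, ENNReal.ofReal (Real.exp (bsum f φ n x)) ∂μ ≠ ⊤ := by
    rw [lintegral_tsum fun n => (hmeas n).aemeasurable]
    have h1 : ∑' n : ℕ, ∫⁻ x in U, ENNReal.ofReal (Real.exp (bsum f φ n x)) ∂μ ≤
        ∑' n : ℕ, C * μ (f^[n] '' U) := ENNReal.tsum_le_tsum hqi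
    rw [ENNReal.tsum_mul_left] at h1
    exact ne_top_of_le_ne_top (ENNReal.mul_ne_top hC (ne_top_of_le_ne_top (measure_ne_top μ _) hsum))
      h1
  have hae := ae_lt_top (Measurable.tsum hmeas) hint
  rw [ae_restrict_iff' hU.measurableSet] at hae
  obtain ⟨x, hxU, hx⟩ : ∃ x ∈ U, ∑' n : ℕ, ENNReal.ofReal (Real.exp (bsum f φ n x)) < ⊤ := by
    by_contra hcon
    push Not at hcon
    apply hμU
    have h2 : ∀ᵐ x ∂μ, x ∉ U := by
      filter_upwards [hae] with x hx hxU
      exact absurd (hx hxU) (not_lt.2 (hcon x hxU))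
    exact measure_eq_zero_iff_ae_notMem.2 h2
  refine ⟨x, hxU, ?_⟩
  have h3 : Tendsto (fun n => ENNReal.ofReal (Real.exp (bsum f φ n x))) atTop (𝓝 0) :=
    ENNReal.tendsto_atTop_zero_of_tsum_ne_top hx.ne
  have h4 : Tendsto (fun n => Real.exp (bsum f φ n x)) atTop (𝓝 0) := by
    have := (ENNReal.tendsto_toReal ENNReal.zero_ne_top).comp h3
    simp only [ENNReal.toReal_zero] at this
    refine this.congr fun n => ?_
    show (ENNReal.ofReal (Real.exp (bsum f φ n x))).toReal = _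
    rw [ENNReal.toReal_ofReal (Real.exp_pos _).le]
  exact Real.tendsto_exp_comp_nhds_zero.1 h4

/-- `φ` is Hölder continuous: there are a `C¹` map `u` to some `ℝᵏ` (for instance an embedding) and
`C`, `α > 0` such that `|φ x - φ y| ≤ C |u x - u y| ^ α`. -/
def HolderMan (E : Type*) [NormedAddCommGroup E] [NormedSpace ℝ E]
    {M : Type*} [TopologicalSpace M] [ChartedSpace E M] (φ : M → ℝ) : Prop :=
  ∃ (k : ℕ) (u : M → EuclideanSpace ℝ (Fin k)) (C α : ℝ), ContMDiff 𝓘(ℝ, E) (𝓡 k) 1 u ∧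
    0 < α ∧ ∀ x y, |φ x - φ y| ≤ C * ‖u x - u y‖ ^ α

theorem bsum_add {M : Type*} (f : M → M) (φ : M → ℝ) (m n : ℕ) (x : M) :
    bsum f φ (m + n) x = bsum f φ m x + bsum f φ n (f^[m] x) := by
  unfold bsum
  rw [Finset.sum_range_add]
  congr 1
  refine Finset.sum_congr rfl fun i _ => ?_
  rw [← Function.iterate_add_apply, add_comm m i]

theorem bsum_mul {M : Type*} (f : M → M) (φ : M → ℝ) (N n : ℕ) (x : M) :
    bsum (f^[N]) (bsum f φ N) n x = bsum f φ (N * n) x := by
  induction n with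
  | zero => simp [bsum]
  | succ n ih =>
    rw [Nat.mul_succ, bsum_add f φ (N * n) N x, ← ih]
    unfold bsum
    rw [Finset.sum_range_succ, ← Function.iterate_mul]

/-- Periodic points with negative sums close to the forward orbits of a wandering open set. -/
theorem near_wandering {E : Type*} [NormedAddCommGroup E] [NormedSpace ℝ E]
    [FiniteDimensional ℝ E]
    {M : Type*} [TopologicalSpace M] [T2Space M] [CompactSpace M] [ConnectedSpace M]
    [ChartedSpace E M] [IsManifold 𝓘(ℝ, E) ∞ M] [MeasurableSpace M] [BorelSpace M]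
    (f : Diffeomorph 𝓘(ℝ, E) 𝓘(ℝ, E) M M 1)
    (Es Eu : ∀ x : M, Submodule ℝ (TangentSpace 𝓘(ℝ, E) x)) (hA : IsAnosov f Es Eu)
    (μ : Measure M) [IsFiniteMeasure μ] (hμ : ∀ U : Set M, IsOpen U → U.Nonempty → μ U ≠ 0)
    (φ : M → ℝ) (hφ : HolderMan E φ) (C : ℝ≥0∞) (hC : C ≠ ⊤)
    (hqi : ∀ U : Set M, IsOpen U → ∀ n : ℕ,
      ∫⁻ x in U, ENNReal.ofReal (Real.exp (bsum f φ n x)) ∂μ ≤ C * μ (f^[n] '' U))
    (U : Set M) (hU : IsOpen U) (hUn : U.Nonempty)
    (hw : ∀ m : ℕ, 1 ≤ m → ¬ (f^[m] '' U ∩ U).Nonempty)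
    (K V : Set M) (hK : IsClosed K) (hV : IsOpen V) (hKV : K ⊆ V)
    (hUK : ∀ m : ℕ, 1 ≤ m → f^[m] '' U ⊆ K) :
    ∃ p : ℕ, 1 ≤ p ∧ ∃ z ∈ V, f^[p] z = z ∧ bsum f φ p z < 0 := by
  obtain ⟨m, ee, hee, hemb, hinje⟩ :=
    exists_embedding_euclidean_of_compact (I := 𝓘(ℝ, E)) (M := M)
  let _ : MetricSpace M := hemb.isEmbedding.comapMetricSpace ee
  have hiso : ∀ x y : M, dist x y = ‖ee x - ee y‖ := fun x y => dist_eq_norm (ee x) (ee y)
  have he1 : ContMDiff 𝓘(ℝ, E) (𝓡 m) 1 ee := hee.of_le (by simp)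
  obtain ⟨k, u, C', α, hu, hα, hφu⟩ := hφ
  have hφc : Continuous φ := by
    rw [continuous_iff_continuousAt]
    intro x
    have h1 : Tendsto (fun y => C' * ‖u y - u x‖ ^ α) (𝓝 x) (𝓝 0) := by
      have h2 : Continuous (fun y => C' * ‖u y - u x‖ ^ α) := by
        refine continuous_const.mul ?_
        exact (hu.continuous.sub continuous_const).norm.rpow_const fun _ => Or.inr hα.le
      have := h2.tendsto x
      simpa [Real.zero_rpow hα.ne'] using this
    rw [ContinuousAt, tendsto_iff_norm_sub_tendsto_zero]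
    exact squeeze_zero (fun y => norm_nonneg _) (fun y => hφu y x) h1
  obtain ⟨L, hL, hLu⟩ := lip_of_C1 ee he1 hiso hinje u hu
  obtain ⟨L', hL', hLf⟩ := lip_of_C1 ee he1 hiso hinje (ee ∘ f) (he1.comp f.contMDiff)
  have hLf' : ∀ x y, dist (f x) (f y) ≤ L' * dist x y := fun x y => by
    rw [hiso]; exact hLf x y
  obtain ⟨x, hxU, hx⟩ := wandering_point μ f.toHomeomorph φ hφc C hC U hU (hμ U hU hUn)
    (hqi U hU) hw
  obtain ⟨C₁, a, b, Ls, Lu, hE⟩ := eanosov_of_isAnosov ee he1 hinje f Es Eu hA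
  obtain ⟨K', hK', hang⟩ := hE.angle he1 hinje
  have t1 : Tendsto (fun n : ℕ => K' * (C₁ * a ^ n)) atTop (𝓝 0) := by
    have :=
      ((tendsto_pow_atTop_nhds_zero_of_lt_one hE.a_pos.le hE.a_lt).const_mul C₁).const_mul K'
    simpa using this
  have t2 : Tendsto (fun n : ℕ => K' * (C₁ * b ^ n)) atTop (𝓝 0) := by
    have :=
      ((tendsto_pow_atTop_nhds_zero_of_lt_one hE.b_pos.le hE.b_lt).const_mul C₁).const_mul K'
    simpa using this
  obtain ⟨n, ⟨h1, h2⟩, hn⟩ := ((((tendsto_order.mp t1).2 (1 / 16) (by norm_num)).and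
    ((tendsto_order.mp t2).2 (1 / 16) (by norm_num))).and (eventually_ge_atTop 1)).exists
  obtain ⟨S, hg, -, -, -⟩ := exists_hypSys' hiso he1 hinje hE K' hK' hang n h1.le h2.le
  have hgk : ∀ k : ℕ, (S.g^[k]) = (f^[n * k]) := by
    intro k
    funext x
    rw [hg]
    exact Q182.AmAnosov.iterHomeo_iter f.toHomeomorph n k x
  have hg1 : (S.g : M → M) = f^[n] := by
    have := hgk 1
    rw [mul_one] at this
    exact this
  have hb : ∀ (j : ℕ) (z : M), ∑ i ∈ Finset.range j, bsum f φ n (S.g^[i] z) =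
      bsum f φ (n * j) z := by
    intro j z
    rw [← bsum_mul, hg1]
    rfl
  -- Hölder continuity of the sum
  have hiter : ∀ (i : ℕ) (x y : M), dist (f^[i] x) (f^[i] y) ≤ L' ^ i * dist x y := by
    intro i
    induction i with
    | zero => intro x y; simp
    | succ i ih =>
      intro x y
      rw [Function.iterate_succ_apply', Function.iterate_succ_apply', pow_succ']
      calc _ ≤ L' * dist (f^[i] x) (f^[i] y) := hLf' _ _
        _ ≤ L' * (L' ^ i * dist x y) := mul_le_mul_of_nonneg_left (ih x y) hL'.le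
        _ = _ := by ring
  have hH : ∀ x y, |bsum f φ n x - bsum f φ n y| ≤
      (∑ i ∈ Finset.range n, |C'| * (L * L' ^ i) ^ α) * dist x y ^ α := by
    intro x y
    unfold bsum
    rw [← Finset.sum_sub_distrib, Finset.sum_mul]
    refine (Finset.abs_sum_le_sum_abs _ _).trans (Finset.sum_le_sum fun i _ => ?_)
    have h3 : ‖u (f^[i] x) - u (f^[i] y)‖ ≤ L * L' ^ i * dist x y := by
      calc _ ≤ L * dist (f^[i] x) (f^[i] y) := hLu _ _
        _ ≤ L * (L' ^ i * dist x y) := mul_le_mul_of_nonneg_left (hiter i x y) hL.le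
        _ = _ := by ring
    calc |φ (f^[i] x) - φ (f^[i] y)| ≤ C' * ‖u (f^[i] x) - u (f^[i] y)‖ ^ α := hφu _ _
      _ ≤ |C'| * ‖u (f^[i] x) - u (f^[i] y)‖ ^ α :=
        mul_le_mul_of_nonneg_right (le_abs_self _) (by positivity)
      _ ≤ |C'| * (L * L' ^ i * dist x y) ^ α :=
        mul_le_mul_of_nonneg_left (Real.rpow_le_rpow (norm_nonneg _) h3 hα.le) (abs_nonneg _)
      _ = _ := by
        rw [Real.mul_rpow (by positivity) dist_nonneg]
        ring
  obtain ⟨δ, hδ, hthick⟩ := hK.isCompact.exists_cthickening_subset_open hV hKV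
  obtain ⟨n₁, p, hn₁, hp, z, hz, hzd, hzs⟩ := exists_neg S (bsum f φ n) _ α
    (Finset.sum_nonneg fun i _ => by positivity) hα hH δ hδ x (by
      have e1 : (fun j : ℕ => ∑ i ∈ Finset.range j, bsum f φ n (S.g^[i] x)) =
          (fun j => bsum f φ j x) ∘ fun j => n * j := funext fun j => hb j x
      rw [e1]
      exact hx.comp (tendsto_id.const_mul_atTop' hn))
  refine ⟨n * p, Nat.mul_pos hn hp, z, hthick ?_, ?_, ?_⟩
  · refine Metric.mem_cthickening_of_dist_le z (S.g^[n₁] x) δ K ?_ hzd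
    rw [hgk]
    exact hUK (n * n₁) (Nat.mul_pos hn hn₁) ⟨x, hxU, rfl⟩
  · rw [← hgk]; exact hz
  · rw [← hb]; exact hzs

/-- Anosov diffeomorphisms with a quasi-invariant measure of full support whose Jacobian is, along
the periodic orbits, at least one. -/
theorem general {E : Type*} [NormedAddCommGroup E] [NormedSpace ℝ E] [FiniteDimensional ℝ E]
    {M : Type*} [TopologicalSpace M] [T2Space M] [CompactSpace M] [ConnectedSpace M]
    [ChartedSpace E M] [IsManifold 𝓘(ℝ, E) ∞ M] [MeasurableSpace M] [BorelSpace M]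
    (f : Diffeomorph 𝓘(ℝ, E) 𝓘(ℝ, E) M M 1)
    (Es Eu : ∀ x : M, Submodule ℝ (TangentSpace 𝓘(ℝ, E) x)) (hA : IsAnosov f Es Eu)
    (μ : Measure M) [IsFiniteMeasure μ] (hμ : ∀ U : Set M, IsOpen U → U.Nonempty → μ U ≠ 0)
    (φ : M → ℝ) (hφ : HolderMan E φ) (C : ℝ≥0∞) (hC : C ≠ ⊤)
    (hqi : ∀ U : Set M, IsOpen U → ∀ n : ℕ,
      ∫⁻ x in U, ENNReal.ofReal (Real.exp (bsum f φ n x)) ∂μ ≤ C * μ (f^[n] '' U)) :
    ((∀ p : ℕ, 1 ≤ p → ∀ z, f^[p] z = z → 0 ≤ bsum f φ p z) → TopTransitive f) ∧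
    ∀ U : Set M, IsOpen U → U.Nonempty → U ≠ univ → f '' closure U ⊆ U →
      ∃ p : ℕ, 1 ≤ p ∧ ∃ z ∈ U, f^[p] z = z ∧ bsum f φ p z < 0 := by
  constructor
  · intro hper
    apply Q182.AmAnosov.man_nw f Es Eu hA
    intro U hU hUn
    by_contra hcon
    push Not at hcon
    obtain ⟨p, hp, z, -, hz, hzs⟩ := near_wandering f Es Eu hA μ hμ φ hφ C hC hqi U hU hUn
      (fun m hm => not_nonempty_iff_eq_empty.2 (hcon m hm)) univ univ isClosed_univ isOpen_univ
      subset_rfl (fun m _ => subset_univ _)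
    exact absurd (hper p hp z hz) (not_le.2 hzs)
  · intro U hU hUn hUu htr
    have hcl : IsClosed (f '' closure U) := by
      have := f.toHomeomorph.isClosedMap (closure U) isClosed_closure
      exact this
    have hiter : ∀ m : ℕ, 1 ≤ m → f^[m] '' U ⊆ f '' closure U := by
      intro m hm
      obtain ⟨j, rfl⟩ := Nat.exists_eq_add_of_le' hm
      have h1 : ∀ j : ℕ, f^[j] '' U ⊆ U := by
        intro j
        induction j with
        | zero => simp
        | succ j ih =>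
          rw [Function.iterate_succ', image_comp]
          exact (image_mono (ih.trans subset_closure)).trans htr
      rw [Function.iterate_succ', image_comp]
      exact image_mono ((h1 j).trans subset_closure)
    have hAo : IsOpen (U \ f '' closure U) := hU.sdiff hcl
    have hAn : (U \ f '' closure U).Nonempty := by
      rw [nonempty_iff_ne_empty]
      intro h0
      have h1 : U = f '' closure U := (sdiff_eq_empty.1 h0).antisymm htr
      have h2 : IsClopen U := ⟨h1 ▸ hcl, hU⟩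
      rcases isClopen_iff.1 h2 with h3 | h3
      · exact hUn.ne_empty h3
      · exact hUu h3
    refine near_wandering f Es Eu hA μ hμ φ hφ C hC hqi (U \ f '' closure U) hAo hAn
      (fun m hm => ?_) (f '' closure U) U hcl hU htr (fun m hm => ?_)
    · rintro ⟨y, hy1, hy2⟩
      exact hy2.2 (hiter m hm ((image_mono sdiff_subset) hy1))
    · exact (image_mono sdiff_subset).trans (hiter m hm)

end Pool.Agent.Q63.Ano
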