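import Pool.Agent.Q63.Ano.Gram
import Pool.Agent.Q63.Ano.Meas

set_option autoImplicit false

open scoped Manifold ContDiff Topology
open Set Filter

namespace Pool.Agent.Q63.Ano

open Pool.Agent.H721R2

variable {E₀ : Type*} [NormedAddCommGroup E₀] [NormedSpace ℝ E₀] [FiniteDimensional ℝ E₀]
  {M : Type*} [TopologicalSpace M] [ChartedSpace E₀ M] [IsManifold 𝓘(ℝ, E₀) ∞ M]
  {F : Type*} [NormedAddCommGroup F] [InnerProductSpace ℝ F]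

/-- Half the logarithm of the quotient of the Gram determinants of the differentials of two maps. -/
noncomputable def lq (E₀ : Type*) [NormedAddCommGroup E₀] [NormedSpace ℝ E₀]
    [FiniteDimensional ℝ E₀] {M : Type*} [TopologicalSpace M] [ChartedSpace E₀ M]
    {F : Type*} [NormedAddCommGroup F] [InnerProductSpace ℝ F] (h₁ h₂ : M → F) (x : M) : ℝ :=
  (Real.log (gd (dm E₀ h₁ x)) - Real.log (gd (dm E₀ h₂ x))) / 2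

theorem hatMap_contDiffAt2 (h : M → F) (hh : ContMDiff 𝓘(ℝ, E₀) 𝓘(ℝ, F) 2 h) (x₀ : M) (p : E₀)
    (hp : p ∈ (extChartAt 𝓘(ℝ, E₀) x₀).target) : ContDiffAt ℝ 2 (hatMap h x₀) p := by
  have : IsManifold 𝓘(ℝ, E₀) 2 M :=
    IsManifold.of_le (n := ∞) (WithTop.coe_le_coe.2 le_top)
  rw [← contMDiffAt_iff_contDiffAt]
  have h1 : ContMDiffOn 𝓘(ℝ, E₀) 𝓘(ℝ, E₀) 2 (extChartAt 𝓘(ℝ, E₀) x₀).symm
      (extChartAt 𝓘(ℝ, E₀) x₀).target := contMDiffOn_extChartAt_symm x₀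
  have h2 : ContMDiffAt 𝓘(ℝ, E₀) 𝓘(ℝ, E₀) 2 (extChartAt 𝓘(ℝ, E₀) x₀).symm p :=
    h1.contMDiffAt ((isOpen_extChartAt_target x₀).mem_nhds hp)
  exact ContMDiffAt.comp p hh.contMDiffAt h2

variable [IsManifold 𝓘(ℝ, E₀) 1 M]

theorem lq_contMDiff (h₁ h₂ : M → F) (hh₁ : ContMDiff 𝓘(ℝ, E₀) 𝓘(ℝ, F) 2 h₁)
    (hh₂ : ContMDiff 𝓘(ℝ, E₀) 𝓘(ℝ, F) 2 h₂) (hp₁ : ∀ x, 0 < gd (dm E₀ h₁ x))
    (hp₂ : ∀ x, 0 < gd (dm E₀ h₂ x)) :
    ContMDiff 𝓘(ℝ, E₀) 𝓘(ℝ, ℝ) 1 (lq E₀ h₁ h₂) := by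
  intro x₀
  set φ := extChartAt 𝓘(ℝ, E₀) x₀ with hφ
  set Ψ : E₀ → ℝ := fun p => (Real.log (gd (fderiv ℝ (hatMap h₁ x₀) p)) -
    Real.log (gd (fderiv ℝ (hatMap h₂ x₀) p))) / 2 with hΨ
  have hx₀ : x₀ ∈ φ.source := mem_extChartAt_source x₀
  have hpos : ∀ h : M → F, ContMDiff 𝓘(ℝ, E₀) 𝓘(ℝ, F) 2 h → (∀ x, 0 < gd (dm E₀ h x)) →
      ∀ x ∈ φ.source, 0 < gd (fderiv ℝ (hatMap h x₀) (φ x)) := by
    intro h hh hp x hx
    have h1 := gd_dm_chart h (hh.of_le (by norm_num)) x₀ x hx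
    have h2 := hp x
    rw [h1] at h2
    by_contra hcon
    push Not at hcon
    have := mul_nonpos_of_nonneg_of_nonpos (sq_nonneg (dm E₀ (extChartAt 𝓘(ℝ, E₀) x₀) x).det) hcon
    linarith
  have hev : lq E₀ h₁ h₂ =ᶠ[𝓝 x₀] Ψ ∘ φ := by
    filter_upwards [(isOpen_extChartAt_source (I := 𝓘(ℝ, E₀)) x₀).mem_nhds hx₀] with x hx
    have e1 := gd_dm_chart h₁ (hh₁.of_le (by norm_num)) x₀ x hx
    have e2 := gd_dm_chart h₂ (hh₂.of_le (by norm_num)) x₀ x hx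
    have hd := pow_ne_zero 2 (det_chart_ne x₀ x hx)
    have p1 := hpos h₁ hh₁ hp₁ x hx
    have p2 := hpos h₂ hh₂ hp₂ x hx
    show (Real.log (gd (dm E₀ h₁ x)) - Real.log (gd (dm E₀ h₂ x))) / 2 =
      (Real.log (gd (fderiv ℝ (hatMap h₁ x₀) (φ x))) -
      Real.log (gd (fderiv ℝ (hatMap h₂ x₀) (φ x)))) / 2
    rw [e1, e2, Real.log_mul hd p1.ne', Real.log_mul hd p2.ne']
    ring
  have hcd : ∀ h : M → F, ContMDiff 𝓘(ℝ, E₀) 𝓘(ℝ, F) 2 h → (∀ x, 0 < gd (dm E₀ h x)) →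
      ContDiffAt ℝ 1 (fun p => Real.log (gd (fderiv ℝ (hatMap h x₀) p))) (φ x₀) := by
    intro h hh hp
    have h1 : ContDiffAt ℝ 1 (fderiv ℝ (hatMap h x₀)) (φ x₀) :=
      (hatMap_contDiffAt2 h hh x₀ _ (φ.map_source hx₀)).fderiv_right (m := 1) (by norm_num)
    have h2 : ContDiffAt ℝ 1 (fun p => gd (fderiv ℝ (hatMap h x₀) p)) (φ x₀) :=
      ((gd_contDiff.of_le (by exact_mod_cast le_top)).contDiffAt).comp _ h1
    exact h2.log (hpos h hh hp x₀ hx₀).ne'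
  have hΨd : ContDiffAt ℝ 1 Ψ (φ x₀) := ((hcd h₁ hh₁ hp₁).sub (hcd h₂ hh₂ hp₂)).div_const 2
  have h3 : ContMDiffAt 𝓘(ℝ, E₀) 𝓘(ℝ, ℝ) 1 (Ψ ∘ φ) x₀ :=
    ContMDiffAt.comp x₀ (contMDiffAt_iff_contDiffAt.2 hΨd) contMDiffAt_extChartAt
  exact h3.congr_of_eventuallyEq hev

theorem det_dg_ne (f : Diffeomorph 𝓘(ℝ, E₀) 𝓘(ℝ, E₀) M M 1) (n : ℕ) (x : M) :
    (dg E₀ (f^[n]) x).det ≠ 0 := by
  have hf : ContMDiff 𝓘(ℝ, E₀) 𝓘(ℝ, E₀) 1 f := f.contMDiff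
  have hfs : ContMDiff 𝓘(ℝ, E₀) 𝓘(ℝ, E₀) 1 f.symm := f.symm.contMDiff
  have h1 := dg_inv (f^[n]) (f.symm^[n]) (iter_smooth f hf n) (iter_smooth f.symm hfs n)
    (fun x => (Function.LeftInverse.iterate f.symm_apply_apply n) x) x
  have hinj : Function.Injective (dg E₀ (f^[n]) x) := by
    intro a b hab
    have e1 := h1 a
    have e2 := h1 b
    rw [hab] at e1
    exact e1.symm.trans e2
  intro h0
  have h3 := LinearMap.bot_lt_ker_of_det_eq_zero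
    (f := ((dg E₀ (f^[n]) x : E₀ →L[ℝ] E₀) : E₀ →ₗ[ℝ] E₀)) h0
  rw [LinearMap.ker_eq_bot.2 hinj] at h3
  exact lt_irrefl _ h3

/-- Birkhoff sums of the logarithm of the Jacobian. -/
theorem bsum_lq (f : Diffeomorph 𝓘(ℝ, E₀) 𝓘(ℝ, E₀) M M 1) (ee : M → F)
    (he : ContMDiff 𝓘(ℝ, E₀) 𝓘(ℝ, F) 1 ee) (hp : ∀ x, 0 < gd (dm E₀ ee x)) (n : ℕ) (x : M) :
    bsum f (lq E₀ (ee ∘ f) ee) n x = lq E₀ (ee ∘ f^[n]) ee x := by
  have hf : ContMDiff 𝓘(ℝ, E₀) 𝓘(ℝ, E₀) 1 f := f.contMDiff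
  induction n with
  | zero => simp [bsum, lq]
  | succ n ih =>
    have h1 : bsum f (lq E₀ (ee ∘ f) ee) (n + 1) x =
        bsum f (lq E₀ (ee ∘ f) ee) n x + lq E₀ (ee ∘ f) ee (f^[n] x) := by
      unfold bsum
      rw [Finset.sum_range_succ]
    rw [h1, ih]
    have e1 : ee ∘ f^[n + 1] = (ee ∘ f) ∘ f^[n] := by
      rw [Function.iterate_succ', Function.comp_assoc]
    have e2 := gd_iter (ee ∘ f) (he.comp hf) (f^[n]) (iter_smooth f hf n) x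
    have e3 := gd_iter ee he (f^[n]) (iter_smooth f hf n) x
    have e4 := gd_iter ee he f hf (f^[n] x)
    have hd := pow_ne_zero 2 (det_dg_ne f n x)
    have hd1 := det_dg_ne f 1 (f^[n] x)
    rw [Function.iterate_one] at hd1
    have p1 := hp (f^[n] x)
    have p2 : 0 < gd (dm E₀ (ee ∘ f) (f^[n] x)) := by
      rw [e4]
      exact mul_pos (by positivity) (hp _)
    unfold lq
    rw [e1, e2, e3, Real.log_mul hd p2.ne', Real.log_mul hd p1.ne']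
    ring

theorem bsum_periodic (f : Diffeomorph 𝓘(ℝ, E₀) 𝓘(ℝ, E₀) M M 1) (ee : M → F)
    (he : ContMDiff 𝓘(ℝ, E₀) 𝓘(ℝ, F) 1 ee) (hp : ∀ x, 0 < gd (dm E₀ ee x)) (n : ℕ) (x : M)
    (hx : f^[n] x = x) :
    bsum f (lq E₀ (ee ∘ f) ee) n x = Real.log |(dg E₀ (f^[n]) x).det| := by
  have hf : ContMDiff 𝓘(ℝ, E₀) 𝓘(ℝ, E₀) 1 f := f.contMDiff
  rw [bsum_lq f ee he hp]
  unfold lq
  rw [gd_iter ee he (f^[n]) (iter_smooth f hf n) x, hx,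
    Real.log_mul (pow_ne_zero 2 (det_dg_ne f n x)) (hp x).ne', ← sq_abs, Real.log_pow]
  push_cast
  ring

end Pool.Agent.Q63.Ano
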