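import Pool.Agent.Q63.Ano.Psi

set_option autoImplicit false

open scoped Manifold ContDiff Topology ENNReal
open Set Filter MeasureTheory

namespace Pool.Agent.Q63.Ano

open Pool.Agent.H721R2

section

variable {E₀ : Type*} [NormedAddCommGroup E₀] [NormedSpace ℝ E₀] [FiniteDimensional ℝ E₀]
  [MeasurableSpace E₀] [BorelSpace E₀]
  {M : Type*} [TopologicalSpace M] [T2Space M] [CompactSpace M] [ChartedSpace E₀ M]
  [IsManifold 𝓘(ℝ, E₀) ∞ M] [IsManifold 𝓘(ℝ, E₀) 1 M]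
  [MeasurableSpace M] [BorelSpace M]
  {F : Type*} [NormedAddCommGroup F] [InnerProductSpace ℝ F]

/-- inverse chart, made measurable -/
noncomputable def inv (x₀ : M) (r : ℝ) : E₀ → M :=
  open Classical in
  (Metric.ball (extChartAt 𝓘(ℝ, E₀) x₀ x₀) r).piecewise (extChartAt 𝓘(ℝ, E₀) x₀).symm
    (fun _ => x₀)

theorem inv_apply (x₀ : M) (r : ℝ) (y : E₀)
    (hy : y ∈ Metric.ball (extChartAt 𝓘(ℝ, E₀) x₀ x₀) r) :
    inv x₀ r y = (extChartAt 𝓘(ℝ, E₀) x₀).symm y := by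
  classical
  unfold inv
  exact Set.piecewise_eq_of_mem _ _ _ hy

theorem inv_measurable (x₀ : M) (r : ℝ)
    (hr : Metric.ball (extChartAt 𝓘(ℝ, E₀) x₀ x₀) r ⊆ (extChartAt 𝓘(ℝ, E₀) x₀).target) :
    Measurable (inv x₀ r : E₀ → M) := by
  classical
  unfold inv
  exact ContinuousOn.measurable_piecewise ((continuousOn_extChartAt_symm x₀).mono hr)
    continuousOn_const Metric.isOpen_ball.measurableSet

/-- The part of the measure of one chart. -/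
noncomputable def pm (x₀ : M) (r : ℝ) : Measure M :=
  ((Measure.addHaar : Measure E₀).restrict (Metric.ball (extChartAt 𝓘(ℝ, E₀) x₀ x₀) r)).map
    (inv x₀ r)

theorem pm_apply (x₀ : M) (r : ℝ)
    (hr : Metric.ball (extChartAt 𝓘(ℝ, E₀) x₀ x₀) r ⊆ (extChartAt 𝓘(ℝ, E₀) x₀).target)
    (A : Set M) (hA : MeasurableSet A) :
    pm (E₀ := E₀) x₀ r A = Measure.addHaar
      (Metric.ball (extChartAt 𝓘(ℝ, E₀) x₀ x₀) r ∩ (extChartAt 𝓘(ℝ, E₀) x₀).symm ⁻¹' A) := by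
  unfold pm
  rw [Measure.map_apply (inv_measurable x₀ r hr) hA,
    Measure.restrict_apply (inv_measurable x₀ r hr hA)]
  congr 1
  ext y
  simp only [mem_inter_iff, mem_preimage]
  constructor
  · rintro ⟨h1, h2⟩
    rw [inv_apply x₀ r y h2] at h1
    exact ⟨h2, h1⟩
  · rintro ⟨h1, h2⟩
    rw [inv_apply x₀ r y h1]
    exact ⟨h2, h1⟩

theorem pm_lintegral (x₀ : M) (r : ℝ)
    (hr : Metric.ball (extChartAt 𝓘(ℝ, E₀) x₀ x₀) r ⊆ (extChartAt 𝓘(ℝ, E₀) x₀).target)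
    (A : Set M) (hA : MeasurableSet A) (g : M → ℝ≥0∞) (hg : Measurable g) :
    ∫⁻ x in A, g x ∂(pm (E₀ := E₀) x₀ r) =
      ∫⁻ y in Metric.ball (extChartAt 𝓘(ℝ, E₀) x₀ x₀) r ∩ (extChartAt 𝓘(ℝ, E₀) x₀).symm ⁻¹' A,
        g ((extChartAt 𝓘(ℝ, E₀) x₀).symm y) ∂Measure.addHaar := by
  unfold pm
  rw [setLIntegral_map hA hg (inv_measurable x₀ r hr),
    Measure.restrict_restrict (inv_measurable x₀ r hr hA)]
  have e1 : inv x₀ r ⁻¹' A ∩ Metric.ball (extChartAt 𝓘(ℝ, E₀) x₀ x₀) r =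
      Metric.ball (extChartAt 𝓘(ℝ, E₀) x₀ x₀) r ∩ (extChartAt 𝓘(ℝ, E₀) x₀).symm ⁻¹' A := by
    ext y
    simp only [mem_inter_iff, mem_preimage]
    constructor
    · rintro ⟨h1, h2⟩
      rw [inv_apply x₀ r y h2] at h1
      exact ⟨h2, h1⟩
    · rintro ⟨h1, h2⟩
      rw [inv_apply x₀ r y h1]
      exact ⟨h2, h1⟩
  rw [e1]
  refine setLIntegral_congr_fun ?_ ?_
  · rw [← e1]
    exact (inv_measurable x₀ r hr hA).inter Metric.isOpen_ball.measurableSet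
  · intro y hy
    show g (inv x₀ r y) = _
    rw [inv_apply x₀ r y hy.1]

/-- Good radii of charts. -/
theorem good_radius (ee : M → F) (he : ContMDiff 𝓘(ℝ, E₀) 𝓘(ℝ, F) 2 ee)
    (hp : ∀ x, 0 < gd (dm E₀ ee x)) (x₀ : M) :
    ∃ r > 0, ∃ g > 0, Metric.ball (extChartAt 𝓘(ℝ, E₀) x₀ x₀) r ⊆
      (extChartAt 𝓘(ℝ, E₀) x₀).target ∧ ∀ y ∈ Metric.ball (extChartAt 𝓘(ℝ, E₀) x₀ x₀) r,
      g ≤ gd (fderiv ℝ (hatMap ee x₀) y) ∧ gd (fderiv ℝ (hatMap ee x₀) y) ≤ 3 * g := by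
  set φ := extChartAt 𝓘(ℝ, E₀) x₀ with hφ
  have hx₀ : x₀ ∈ φ.source := mem_extChartAt_source x₀
  have h0 : 0 < gd (fderiv ℝ (hatMap ee x₀) (φ x₀)) := by
    have h1 := gd_dm_chart ee (he.of_le (by norm_num)) x₀ x₀ hx₀
    have h2 := hp x₀
    rw [h1] at h2
    by_contra hcon
    push Not at hcon
    have := mul_nonpos_of_nonneg_of_nonpos
      (sq_nonneg (dm E₀ (extChartAt 𝓘(ℝ, E₀) x₀) x₀).det) hcon
    linarith
  have h1 : ContDiffAt ℝ 1 (fderiv ℝ (hatMap ee x₀)) (φ x₀) :=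
    (hatMap_contDiffAt2 ee he x₀ _ (φ.map_source hx₀)).fderiv_right (m := 1) (by norm_num)
  have h2 : ContinuousAt (fun p => gd (fderiv ℝ (hatMap ee x₀) p)) (φ x₀) :=
    (gd_contDiff.continuous.continuousAt).comp h1.continuousAt
  set g₀ := gd (fderiv ℝ (hatMap ee x₀) (φ x₀)) with hg₀
  have h3 : ∀ᶠ p in 𝓝 (φ x₀), g₀ / 2 < gd (fderiv ℝ (hatMap ee x₀) p) ∧
      gd (fderiv ℝ (hatMap ee x₀) p) < 3 / 2 * g₀ := by
    exact (h2.eventually (lt_mem_nhds (by show g₀ / 2 < g₀; linarith))).and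
      (h2.eventually (gt_mem_nhds (by show g₀ < 3 / 2 * g₀; linarith)))
  obtain ⟨r, hr, hball⟩ := Metric.mem_nhds_iff.1 (inter_mem h3 (extChartAt_target_mem_nhds x₀))
  refine ⟨r, hr, g₀ / 2, half_pos h0, fun y hy => (hball hy).2, fun y hy => ?_⟩
  have := (hball hy).1
  exact ⟨this.1.le, by linarith [this.2]⟩

end

end Pool.Agent.Q63.Ano
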