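import Pool.Agent.Q63.Ano.Vol

set_option autoImplicit false

open scoped Manifold ContDiff Topology ENNReal
open Set Filter MeasureTheory

namespace Pool.Agent.Q63.Ano

open Pool.Agent.H721R2

section

variable {E₀ : Type*} [NormedAddCommGroup E₀] [NormedSpace ℝ E₀] [FiniteDimensional ℝ E₀]
  [MeasurableSpace E₀] [BorelSpace E₀]
  {M : Type*} [TopologicalSpace M] [T2Space M] [CompactSpace M] [ChartedSpace E₀ M]
  [IsManifold 𝓘(ℝ, E₀) ∞ M] [IsManifold 𝓘(ℝ, E₀) 1 M]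
  [MeasurableSpace M] [BorelSpace M]
  {F : Type*} [NormedAddCommGroup F] [InnerProductSpace ℝ F]

/-- The part of the domain of the chart `j` that goes to the ball of radius `r`. -/
def pt (j : M) (r : ℝ) : Set M :=
  (extChartAt 𝓘(ℝ, E₀) j).source ∩ extChartAt 𝓘(ℝ, E₀) j ⁻¹'
    Metric.ball (extChartAt 𝓘(ℝ, E₀) j j) r

omit [IsManifold 𝓘(ℝ, E₀) ∞ M] [IsManifold 𝓘(ℝ, E₀) 1 M] [MeasurableSpace M] [BorelSpace M]
  [MeasurableSpace E₀] [BorelSpace E₀] [FiniteDimensional ℝ E₀] [T2Space M] [CompactSpace M] in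
theorem pt_open (j : M) (r : ℝ) : IsOpen (pt (E₀ := E₀) j r) :=
  (continuousOn_extChartAt j).isOpen_inter_preimage (isOpen_extChartAt_source j) Metric.isOpen_ball

theorem pair (ee : M → F) (he : ContMDiff 𝓘(ℝ, E₀) 𝓘(ℝ, F) 2 ee)
    (G : M → M) (hG : ContMDiff 𝓘(ℝ, E₀) 𝓘(ℝ, E₀) 1 G) (hGi : Function.Injective G)
    (hGd : ∀ x, 0 < gd (dm E₀ (ee ∘ G) x))
    (U : Set M) (hU : IsOpen U) (hGU : IsOpen (G '' U))
    (i j : M) (ri rj gi gj : ℝ) (hgi : 0 < gi) (hgj : 0 < gj)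
    (hri : Metric.ball (extChartAt 𝓘(ℝ, E₀) i i) ri ⊆ (extChartAt 𝓘(ℝ, E₀) i).target)
    (hrj : Metric.ball (extChartAt 𝓘(ℝ, E₀) j j) rj ⊆ (extChartAt 𝓘(ℝ, E₀) j).target)
    (bi : ∀ y ∈ Metric.ball (extChartAt 𝓘(ℝ, E₀) i i) ri, gi ≤ gd (fderiv ℝ (hatMap ee i) y))
    (bj : ∀ y ∈ Metric.ball (extChartAt 𝓘(ℝ, E₀) j j) rj,
      gd (fderiv ℝ (hatMap ee j) y) ≤ 3 * gj)
    (bj' : ∀ y ∈ Metric.ball (extChartAt 𝓘(ℝ, E₀) j j) rj,
      0 < gd (fderiv ℝ (hatMap ee j) y)) :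
    ∫⁻ y in Metric.ball (extChartAt 𝓘(ℝ, E₀) i i) ri ∩
        (extChartAt 𝓘(ℝ, E₀) i).symm ⁻¹' (U ∩ G ⁻¹' (pt (E₀ := E₀) j rj)),
        ENNReal.ofReal (Real.exp (lq E₀ (ee ∘ G) ee ((extChartAt 𝓘(ℝ, E₀) i).symm y)))
        ∂Measure.addHaar ≤
      ENNReal.ofReal (Real.exp (Real.log (3 * gj / gi) / 2)) * pm (E₀ := E₀) j rj (G '' U) := by
  set φ := extChartAt 𝓘(ℝ, E₀) i with hφ
  set χ := extChartAt 𝓘(ℝ, E₀) j with hχ
  set W : Set E₀ := Metric.ball (φ i) ri ∩ φ.symm ⁻¹' (U ∩ G ⁻¹' (pt (E₀ := E₀) j rj)) with hW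
  have hWo : IsOpen W :=
    ((continuousOn_extChartAt_symm i).mono hri).isOpen_inter_preimage Metric.isOpen_ball
      (hU.inter ((pt_open j rj).preimage hG.continuous))
  set T : E₀ → E₀ := χ ∘ G ∘ φ.symm with hT
  have he1 : ContMDiff 𝓘(ℝ, E₀) 𝓘(ℝ, F) 1 ee := he.of_le (by norm_num)
  have hheG : ContMDiff 𝓘(ℝ, E₀) 𝓘(ℝ, F) 1 (ee ∘ G) := he1.comp hG
  have hTd : ∀ y ∈ W, DifferentiableAt ℝ T y := by
    intro y hy
    have h1 : ContMDiffAt 𝓘(ℝ, E₀) 𝓘(ℝ, E₀) 1 φ.symm y :=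
      (contMDiffOn_extChartAt_symm i).contMDiffAt
        ((isOpen_extChartAt_target i).mem_nhds (hri hy.1))
    have h2 : ContMDiffAt 𝓘(ℝ, E₀) 𝓘(ℝ, E₀) 1 χ (G (φ.symm y)) := by
      refine contMDiffAt_extChartAt' ?_
      have := hy.2.2.1
      rwa [extChartAt_source] at this
    have h3 : ContMDiffAt 𝓘(ℝ, E₀) 𝓘(ℝ, E₀) 1 T y :=
      h2.comp y (hG.contMDiffAt.comp y h1)
    exact (contMDiffAt_iff_contDiffAt.1 h3).differentiableAt (by norm_num)
  have hTder : ∀ y ∈ W, HasFDerivWithinAt T (fderiv ℝ T y) W y :=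
    fun y hy => (hTd y hy).hasFDerivAt.hasFDerivWithinAt
  have hTinj : InjOn T W := by
    intro y hy y' hy' h
    have h1 : G (φ.symm y) = G (φ.symm y') := χ.injOn hy.2.2.1 hy'.2.2.1 h
    exact φ.symm.injOn (hri hy.1) (hri hy'.1) (hGi h1)
  have hcv := lintegral_abs_det_fderiv_eq_addHaar_image (Measure.addHaar : Measure E₀)
    hWo.measurableSet hTder hTinj
  have hTW : T '' W ⊆ Metric.ball (χ j) rj ∩ χ.symm ⁻¹' (G '' U) := by
    rintro _ ⟨y, hy, rfl⟩
    refine ⟨hy.2.2.2, φ.symm y, hy.2.1, ?_⟩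
    exact (χ.left_inv hy.2.2.1).symm
  have hpt : ∀ y ∈ W, ENNReal.ofReal (Real.exp (lq E₀ (ee ∘ G) ee (φ.symm y))) ≤
      ENNReal.ofReal (Real.exp (Real.log (3 * gj / gi) / 2)) *
        ENNReal.ofReal |(fderiv ℝ T y).det| := by
    intro y hy
    have hys : φ.symm y ∈ φ.source := φ.map_target (hri hy.1)
    have hyy : φ (φ.symm y) = y := φ.right_inv (hri hy.1)
    have e1 := gd_dm_chart (ee ∘ G) hheG i (φ.symm y) hys
    have e2 := gd_dm_chart ee he1 i (φ.symm y) hys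
    rw [← hφ, hyy] at e1 e2
    have hd := det_chart_ne i (φ.symm y) hys
    rw [← hφ] at hd
    have hev : hatMap (ee ∘ G) i =ᶠ[𝓝 y] hatMap ee j ∘ T := by
      filter_upwards [hWo.mem_nhds hy] with z hz
      show ee (G (φ.symm z)) = ee (χ.symm (χ (G (φ.symm z))))
      rw [χ.left_inv hz.2.2.1]
    have e3 : fderiv ℝ (hatMap (ee ∘ G) i) y =
        (fderiv ℝ (hatMap ee j) (T y)).comp (fderiv ℝ T y) := by
      rw [hev.fderiv_eq]
      exact fderiv_comp y ((hatMap_contDiffAt ee he1 j _ (hrj hy.2.2.2)).differentiableAt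
        (by norm_num)) (hTd y hy)
    rw [e3, gd_comp] at e1
    have p1 := bi y hy.1
    have p2 := bj (T y) hy.2.2.2
    have p2' := bj' (T y) hy.2.2.2
    have p3 := hGd (φ.symm y)
    rw [e1] at p3
    have hdT : (fderiv ℝ T y).det ≠ 0 := by
      intro h0
      rw [h0] at p3
      simp at p3
    have hgi' : 0 < gd (fderiv ℝ (hatMap ee i) y) := lt_of_lt_of_le hgi p1
    rw [← ENNReal.ofReal_mul (Real.exp_pos _).le]
    refine ENNReal.ofReal_le_ofReal ?_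
    have hlq : lq E₀ (ee ∘ G) ee (φ.symm y) = Real.log |(fderiv ℝ T y).det| +
        (Real.log (gd (fderiv ℝ (hatMap ee j) (T y))) -
        Real.log (gd (fderiv ℝ (hatMap ee i) y))) / 2 := by
      have e4 : Real.log ((fderiv ℝ T y).det ^ 2) = 2 * Real.log |(fderiv ℝ T y).det| := by
        rw [← sq_abs (fderiv ℝ T y).det, Real.log_pow]
        push_cast
        ring
      unfold lq
      rw [e1, e2, Real.log_mul (pow_ne_zero 2 hd) (mul_ne_zero (pow_ne_zero 2 hdT) p2'.ne'),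
        Real.log_mul (pow_ne_zero 2 hdT) p2'.ne', Real.log_mul (pow_ne_zero 2 hd) hgi'.ne', e4]
      ring
    have hle : (Real.log (gd (fderiv ℝ (hatMap ee j) (T y))) -
        Real.log (gd (fderiv ℝ (hatMap ee i) y))) / 2 ≤ Real.log (3 * gj / gi) / 2 := by
      have h1 := Real.log_le_log p2' p2
      have h2 := Real.log_le_log hgi p1
      rw [Real.log_div (by positivity) hgi.ne']
      linarith
    calc Real.exp (lq E₀ (ee ∘ G) ee (φ.symm y))
        ≤ Real.exp (Real.log (3 * gj / gi) / 2 + Real.log |(fderiv ℝ T y).det|) := by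
          refine Real.exp_le_exp.2 ?_
          rw [hlq]
          linarith
      _ = _ := by rw [Real.exp_add, Real.exp_log (abs_pos.2 hdT)]
  calc _ ≤ ∫⁻ y in W, ENNReal.ofReal (Real.exp (Real.log (3 * gj / gi) / 2)) *
        ENNReal.ofReal |(fderiv ℝ T y).det| ∂Measure.addHaar :=
        setLIntegral_mono' hWo.measurableSet hpt
    _ = ENNReal.ofReal (Real.exp (Real.log (3 * gj / gi) / 2)) *
        ∫⁻ y in W, ENNReal.ofReal |(fderiv ℝ T y).det| ∂Measure.addHaar :=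
        lintegral_const_mul' _ _ ENNReal.ofReal_ne_top
    _ = ENNReal.ofReal (Real.exp (Real.log (3 * gj / gi) / 2)) * Measure.addHaar (T '' W) := by
        rw [hcv]
    _ ≤ _ := by
        refine mul_le_mul_right ?_ _
        rw [pm_apply j rj hrj _ hGU.measurableSet]
        exact measure_mono hTW

end

/-- The smooth measure class. -/
theorem vol_measure {E : Type*} [NormedAddCommGroup E] [NormedSpace ℝ E] [FiniteDimensional ℝ E]
    {M : Type*} [TopologicalSpace M] [T2Space M] [CompactSpace M]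
    [ChartedSpace E M] [IsManifold 𝓘(ℝ, E) ∞ M] [IsManifold 𝓘(ℝ, E) 1 M]
    [MeasurableSpace M] [BorelSpace M]
    {F : Type*} [NormedAddCommGroup F] [InnerProductSpace ℝ F]
    (f : Diffeomorph 𝓘(ℝ, E) 𝓘(ℝ, E) M M 1) (ee : M → F)
    (he : ContMDiff 𝓘(ℝ, E) 𝓘(ℝ, F) 2 ee) (hp : ∀ x, 0 < gd (dm E ee x))
    (hφ : Continuous (lq E (ee ∘ f) ee)) :
    ∃ μ : Measure M, IsFiniteMeasure μ ∧ (∀ U : Set M, IsOpen U → U.Nonempty → μ U ≠ 0) ∧
      ∃ C : ℝ≥0∞, C ≠ ⊤ ∧ ∀ U : Set M, IsOpen U → ∀ n : ℕ,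
        ∫⁻ x in U, ENNReal.ofReal (Real.exp (bsum f (lq E (ee ∘ f) ee) n x)) ∂μ ≤
          C * μ (f^[n] '' U) := by
  let _ : MeasurableSpace E := borel E
  have _ : BorelSpace E := ⟨rfl⟩
  have he1 : ContMDiff 𝓘(ℝ, E) 𝓘(ℝ, F) 1 ee := he.of_le (by norm_num)
  have hf : ContMDiff 𝓘(ℝ, E) 𝓘(ℝ, E) 1 f := f.contMDiff
  choose r hr g hg hball hb using good_radius (E₀ := E) ee he hp
  obtain ⟨t, -, ht⟩ := (isCompact_univ (X := M)).elim_nhds_subcover
    (fun x₀ => pt (E₀ := E) x₀ (r x₀))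
    (fun x₀ _ => (pt_open x₀ (r x₀)).mem_nhds
      ⟨mem_extChartAt_source x₀, Metric.mem_ball_self (hr x₀)⟩)
  have hfin : ∀ i, IsFiniteMeasure (pm (E₀ := E) i (r i)) := by
    intro i
    unfold pm
    have : IsFiniteMeasure ((Measure.addHaar : Measure E).restrict
        (Metric.ball (extChartAt 𝓘(ℝ, E) i i) (r i))) :=
      ⟨by rw [Measure.restrict_apply_univ]; exact measure_ball_lt_top⟩
    infer_instance
  refine ⟨∑ i ∈ t, pm (E₀ := E) i (r i), ?_, ?_, ?_⟩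
  · constructor
    rw [Measure.finsetSum_apply]
    exact ENNReal.sum_lt_top.2 fun i _ => measure_lt_top _ _
  · rintro U hU ⟨x, hx⟩ h0
    obtain ⟨i, hi, hxi⟩ := mem_iUnion₂.1 (ht (mem_univ x))
    rw [Measure.finsetSum_apply, Finset.sum_eq_zero_iff] at h0
    have h1 := h0 i hi
    rw [pm_apply i (r i) (hball i) U hU.measurableSet] at h1
    have h2 : IsOpen (Metric.ball (extChartAt 𝓘(ℝ, E) i i) (r i) ∩
        (extChartAt 𝓘(ℝ, E) i).symm ⁻¹' U) :=
      ((continuousOn_extChartAt_symm i).mono (hball i)).isOpen_inter_preimage Metric.isOpen_ball hU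
    have h3 : (Metric.ball (extChartAt 𝓘(ℝ, E) i i) (r i) ∩
        (extChartAt 𝓘(ℝ, E) i).symm ⁻¹' U).Nonempty := by
      refine ⟨extChartAt 𝓘(ℝ, E) i x, hxi.2, ?_⟩
      show (extChartAt 𝓘(ℝ, E) i).symm (extChartAt 𝓘(ℝ, E) i x) ∈ U
      rw [(extChartAt 𝓘(ℝ, E) i).left_inv hxi.1]
      exact hx
    exact h2.measure_ne_zero _ h3 h1
  · refine ⟨∑ i ∈ t, ∑ j ∈ t, ENNReal.ofReal (Real.exp (Real.log (3 * g j / g i) / 2)), ?_,
      fun U hU n => ?_⟩
    · exact (ENNReal.sum_lt_top.2 fun i _ => ENNReal.sum_lt_top.2 fun j _ =>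
        ENNReal.ofReal_lt_top).ne
    set G := f^[n] with hG
    have hG1 : ContMDiff 𝓘(ℝ, E) 𝓘(ℝ, E) 1 G := iter_smooth f hf n
    have hGi : Function.Injective G := f.injective.iterate n
    have hGU : IsOpen (G '' U) := by
      have h1 : ∀ m : ℕ, IsOpen (f^[m] '' U) := by
        intro m
        induction m with
        | zero => simpa using hU
        | succ m ih =>
          rw [Function.iterate_succ', image_comp]
          exact f.toHomeomorph.isOpenMap _ ih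
      exact h1 n
    have hGd : ∀ x, 0 < gd (dm E (ee ∘ G) x) := by
      intro x
      rw [gd_iter ee he1 G hG1 x]
      exact mul_pos (by have := det_dg_ne f n x; positivity) (hp _)
    have hbs : ∀ x, bsum f (lq E (ee ∘ f) ee) n x = lq E (ee ∘ G) ee x :=
      fun x => bsum_lq f ee he1 hp n x
    have hmeas : Measurable fun x => ENNReal.ofReal (Real.exp (lq E (ee ∘ G) ee x)) := by
      have h1 : Continuous fun x => bsum f (lq E (ee ∘ f) ee) n x :=
        continuous_finsetSum _ fun i _ => hφ.comp (f.toHomeomorph.continuous.iterate i)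
      have h2 : (fun x => lq E (ee ∘ G) ee x) = fun x => bsum f (lq E (ee ∘ f) ee) n x :=
        funext fun x => (hbs x).symm
      have h3 : Continuous fun x => lq E (ee ∘ G) ee x := h2 ▸ h1
      exact (Real.continuous_exp.comp h3).measurable.ennreal_ofReal
    simp only [hbs]
    have hres : (∑ i ∈ t, pm (E₀ := E) i (r i)).restrict U =
        ∑ i ∈ t, (pm (E₀ := E) i (r i)).restrict U := map_sum (Measure.restrictₗ U) _ _
    rw [hres, lintegral_finsetSum_measure, Finset.sum_mul]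
    refine Finset.sum_le_sum fun i hi => ?_
    rw [pm_lintegral i (r i) (hball i) U hU.measurableSet _ hmeas]
    rw [Finset.sum_mul]
    have hcov : Metric.ball (extChartAt 𝓘(ℝ, E) i i) (r i) ∩
        (extChartAt 𝓘(ℝ, E) i).symm ⁻¹' U ⊆
        ⋃ j : t, Metric.ball (extChartAt 𝓘(ℝ, E) i i) (r i) ∩
          (extChartAt 𝓘(ℝ, E) i).symm ⁻¹' (U ∩ G ⁻¹' (pt (E₀ := E) j.1 (r j.1))) := by
      rintro y ⟨h1, h2⟩
      obtain ⟨j, hj, hj'⟩ := mem_iUnion₂.1 (ht (mem_univ (G ((extChartAt 𝓘(ℝ, E) i).symm y))))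
      exact mem_iUnion.2 ⟨⟨j, hj⟩, h1, h2, hj'⟩
    refine (lintegral_mono_set hcov).trans ((lintegral_iUnion_le _ _).trans ?_)
    rw [tsum_fintype, Finset.univ_eq_attach]
    rw [← Finset.sum_attach t (fun j => ENNReal.ofReal (Real.exp (Real.log (3 * g j / g i) / 2)) *
      (∑ i ∈ t, pm (E₀ := E) i (r i)) (G '' U))]
    refine Finset.sum_le_sum fun j _ => ?_
    refine (pair ee he G hG1 hGi hGd U hU hGU i j.1 (r i) (r j.1) (g i) (g j.1) (hg i) (hg j.1)
      (hball i) (hball j.1) (fun y hy => (hb i y hy).1) (fun y hy => (hb j.1 y hy).2)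
      (fun y hy => lt_of_lt_of_le (hg j.1) (hb j.1 y hy).1)).trans ?_
    refine mul_le_mul_right ?_ _
    rw [Measure.finsetSum_apply]
    exact Finset.single_le_sum (f := fun j => pm (E₀ := E) j (r j) (G '' U))
      (fun _ _ => zero_le) j.2

end Pool.Agent.Q63.Ano
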